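import Pool.Agent.H10x.QW.Defs
import Mathlib.Algebra.AlgebraicCard

/-!
# Verifiers with witnesses from a family of states; optimal witnesses
-/

set_option autoImplicit false

namespace Pool.Agent.H10x.OW

open Pool.Agent.NPC Pool.Agent.H620R2.Gauge Finset
open Pool.Agent.H9x.Q (Basis bit ket)
open Pool.Agent.H10x.QW (UOracle Gate Verifier IsState)

/-- The subset states of `p` qubits: the uniform superpositions over nonempty sets of strings. -/
def Sub (p : ℕ) : Set (Basis p → ℂ) :=
  {φ | ∃ S : Finset (Basis p), S.Nonempty ∧
    ∀ w, φ w = if w ∈ S then ((1 / Real.sqrt S.card : ℝ) : ℂ) else 0}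

/-- The vectors of `2 ^ p` algebraic numbers. -/
def Alg (p : ℕ) : Set (Basis p → ℂ) := {φ | ∀ w, IsAlgebraic ℚ (φ w)}

/-- The language `L` has exact unique witnesses in the family `S` of sets of states: for every input
in `L` some state in `S` is accepted with probability one, and all states orthogonal to it with
probability zero; for the other inputs all states are accepted with probability zero. -/
def IsExact (S : (p : ℕ) → Set (Basis p → ℂ)) (A : Oracle) (U : UOracle) (L : Set (List Bool)) :
    Prop :=
  ∃ F : Verifier, ∀ x,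
    (x ∈ L → ∃ ψ ∈ S (F.wit.eval x.length), IsState ψ ∧ F.acc A U x ψ = 1 ∧
      ∀ φ, IsState φ → ∑ w, star (ψ w) * φ w = 0 → F.acc A U x φ = 0) ∧
    (x ∉ L → ∀ φ, IsState φ → F.acc A U x φ = 0)

/-- The promise problem is decided by a verifier with optimal witnesses in the family `W`: for the
instances in `Y` some state in `W` is accepted with probability at least `2 / 3` and maximises the
probability of acceptance over all states; for the instances in `N` all states are accepted with
probability at most `1 / 3`. For the subset states, `W = Sub`, this is the class `oSQMA`. -/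
def IsOpt (W : (p : ℕ) → Set (Basis p → ℂ)) (A : Oracle) (U : UOracle) (Y N : Set (List Bool)) :
    Prop :=
  ∃ F : Verifier, ∀ x,
    (x ∈ Y → ∃ φ ∈ W (F.wit.eval x.length), IsState φ ∧ 2 / 3 ≤ F.acc A U x φ ∧
      ∀ φ', IsState φ' → F.acc A U x φ' ≤ F.acc A U x φ) ∧
    (x ∈ N → ∀ φ, IsState φ → F.acc A U x φ ≤ 1 / 3)

/-- The same with polynomial advice: the input of the verifier is the pair of an advice string, which
depends only on the length of `x` and has polynomially bounded length, and of `x`. -/
def IsOptPoly (W : (p : ℕ) → Set (Basis p → ℂ)) (A : Oracle) (U : UOracle)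
    (Y N : Set (List Bool)) : Prop :=
  ∃ (F : Verifier) (q : Polynomial ℕ) (h : ℕ → List Bool),
    (∀ n, (h n).length ≤ q.eval n) ∧ ∀ x,
    (x ∈ Y → ∃ φ ∈ W (F.wit.eval (pairBits (h x.length) x).length), IsState φ ∧
      2 / 3 ≤ F.acc A U (pairBits (h x.length) x) φ ∧
      ∀ φ', IsState φ' → F.acc A U (pairBits (h x.length) x) φ' ≤
        F.acc A U (pairBits (h x.length) x) φ) ∧
    (x ∈ N → ∀ φ, IsState φ → F.acc A U (pairBits (h x.length) x) φ ≤ 1 / 3)

end Pool.Agent.H10x.OW
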