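import Pool.Agent.H10x.OW.World

/-!
# The theorem for the subset states and for the states with algebraic amplitudes
-/

set_option autoImplicit false

namespace Pool.Agent.H10x.OW

open Pool.Agent.NPC Pool.Agent.H620R2.Gauge Finset
open Pool.Agent.H9x.Q (Basis bit ket ket_norm)
open Pool.Agent.H10x.QW (UOracle Gate Verifier IsState IsQCPH IsQCPHpoly)

theorem alg_countable (p : ℕ) : (Alg p).Countable :=
  Set.countable_pi fun _ : Basis p => Algebraic.countable ℚ ℂ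

theorem IsExact.isOpt {S : (p : ℕ) → Set (Basis p → ℂ)} {A : Oracle} {U : UOracle}
    {L : Set (List Bool)} (hL : IsExact S A U L) : IsOpt S A U L Lᶜ := by
  obtain ⟨F, hF⟩ := hL
  refine ⟨F, fun x => ⟨fun hx => ?_, fun hx φ hφ => ?_⟩⟩
  · obtain ⟨ψ, h1, h2, h3, _⟩ := (hF x).1 hx
    refine ⟨ψ, h1, h2, by rw [h3]; norm_num, fun φ' hφ' => ?_⟩
    rw [h3]
    exact (acc_le F A U x φ').trans (le_of_eq hφ')
  · rw [(hF x).2 hx φ hφ]
    norm_num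

/-- **The theorem.** -/
theorem final (A : Oracle) (W : (p : ℕ) → Set (Basis p → ℂ)) (hW : ∀ p, (W p).Countable) :
    ∃ U : UOracle,
      (∃ L, IsExact Sub A U L ∧ IsOpt Sub A U L Lᶜ ∧
        ¬ IsQCPH A U L Lᶜ ∧ ¬ IsQCPHpoly A U L Lᶜ) ∧
      ∃ L, IsExact (fun _ => Set.univ) A U L ∧
        (¬ IsOpt Sub A U L Lᶜ ∧ ¬ IsOptPoly Sub A U L Lᶜ) ∧
        (¬ IsOpt Alg A U L Lᶜ ∧ ¬ IsOptPoly Alg A U L Lᶜ) ∧
        ¬ IsOpt W A U L Lᶜ ∧ ¬ IsOptPoly W A U L Lᶜ := by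
  obtain ⟨U, ⟨L₁, h1, h2, h3⟩, ⟨L₂, h4, h5, h6⟩⟩ := world A (fun p => (Sub p ∪ Alg p) ∪ W p)
    fun p => ((sub_countable p).union (alg_countable p)).union (hW p)
  refine ⟨U, ⟨L₁, h1, h1.isOpt, h2, h3⟩, ⟨L₂, h4, ⟨fun h => h5 (h.mono fun p => ?_),
    fun h => h6 (h.mono fun p => ?_)⟩, ⟨fun h => h5 (h.mono fun p => ?_),
    fun h => h6 (h.mono fun p => ?_)⟩, fun h => h5 (h.mono fun p => ?_),
    fun h => h6 (h.mono fun p => ?_)⟩⟩
  · exact fun φ hφ => Or.inl (Or.inl hφ)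
  · exact fun φ hφ => Or.inl (Or.inl hφ)
  · exact fun φ hφ => Or.inl (Or.inr hφ)
  · exact fun φ hφ => Or.inl (Or.inr hφ)
  · exact fun φ hφ => Or.inr hφ
  · exact fun φ hφ => Or.inr hφ

end Pool.Agent.H10x.OW
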