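import Pool.Agent.H10x.OW.Stage

/-!
# The two requirements
-/

set_option autoImplicit false

namespace Pool.Agent.H10x.OW

open Pool.Agent.NPC Pool.Agent.H620R2.Gauge Finset
open Pool.Agent.H622R2 Pool.Agent.H622R2.Exp Pool.Agent.TH678.ETH Pool.Agent.TH678.SETH
  Pool.Agent.TH678.RS
open Pool.Agent.H9x.Q (Basis bit ket ket_norm)
open Pool.Agent.H10x.QW (UOracle Gate Verifier IsState rd wr run xs Short lst Alt acc_congr)
open scoped Topology

/-- the data for the odd numbers of qubits have the values zero and one -/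
def QQ (s : ℕ) (σ : List Bool → ℝ) : Prop := s % 2 = 1 → ∀ z, σ z = 0 ∨ σ z = 1

/-- the requirement for the alternating classical witnesses -/
def Req1 (A : Oracle) (d : Bool) (F : Verifier) (p q : Polynomial ℕ) (k : ℕ) (κ : Dat) : Prop :=
  ∀ h : ℕ → List Bool, (∀ n, (h n).length ≤ q.eval n) → ¬ ∀ x : List Bool,
    (x ∈ LL κ 1 → Alt (p.eval (inp d (h x.length) x).length)
      (fun w => 2 / 3 ≤ F.accC A (ro κ) (inp d (h x.length) x) w) k true []) ∧
    (x ∉ LL κ 1 → Alt (p.eval (inp d (h x.length) x).length)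
      (fun w => F.accC A (ro κ) (inp d (h x.length) x) w ≤ 1 / 3) k false [])

/-- the requirement for the optimal witnesses -/
def Req2 (A : Oracle) (W : (p : ℕ) → Set (Basis p → ℂ)) (d : Bool) (F : Verifier)
    (q : Polynomial ℕ) (κ : Dat) : Prop :=
  ∀ h : ℕ → List Bool, (∀ n, (h n).length ≤ q.eval n) → ¬ ∀ x : List Bool,
    (x ∈ LL κ 0 → ∃ φ ∈ W (F.wit.eval (inp d (h x.length) x).length), IsState φ ∧
      2 / 3 ≤ F.acc A (ro κ) (inp d (h x.length) x) φ ∧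
      ∀ φ', IsState φ' → F.acc A (ro κ) (inp d (h x.length) x) φ' ≤
        F.acc A (ro κ) (inp d (h x.length) x) φ) ∧
    (x ∉ LL κ 0 → ∀ φ, IsState φ → F.acc A (ro κ) (inp d (h x.length) x) φ ≤ 1 / 3)

theorem cut_QQ {κ : Dat} (hκ : ∀ s, QQ s (κ s)) (N s : ℕ) : QQ s (cutD κ N s) := by
  intro hs z
  unfold cutD
  split_ifs
  · exact hκ s hs z
  · exact Or.inl rfl

theorem up_QQ {κ₀ : Dat} (hκ : ∀ s, QQ s (κ₀ s)) {m : ℕ} {a : Basis m → ℝ}
    (ha : m % 2 = 1 → ∀ u, a u = 0 ∨ a u = 1) (s : ℕ) : QQ s (up κ₀ m a s) := by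
  intro hs z
  unfold up
  by_cases h : s = m
  · subst h
    rw [Function.update_self]
    exact ha hs _
  · rw [Function.update_of_ne h]
    exact hκ s hs z

theorem up_lt {κ : Dat} {N m : ℕ} (hN : N ≤ m) (a : Basis m → ℝ) {s : ℕ} (hs : s < N) :
    up (cutD κ N) m a s = κ s := by
  unfold up
  rw [Function.update_of_ne (by omega)]
  unfold cutD
  rw [if_pos hs]

/-- **One stage for the alternating classical witnesses.** -/
theorem stage1 (A : Oracle) (d : Bool) (F : Verifier) (p q : Polynomial ℕ) (k N : ℕ) (κ : Dat)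
    (hκ : ∀ s, QQ s (κ s)) : ∃ (κ' : Dat) (N' : ℕ), (∀ s, QQ s (κ' s)) ∧ (∀ s < N, κ' s = κ s) ∧
      ∀ κ'' : Dat, (∀ s < N', κ'' s = κ' s) → Req1 A d F p q k κ'' := by
  classical
  obtain ⟨T, j, hNj, hsz⟩ := exists_sz F q N
  obtain ⟨X, hX, hXc⟩ := exists_X hsz
  set L := 2 * q.eval (2 * j) + 1 + 2 * j with hL
  set r := q.eval (2 * j) with hr
  have h0 : (ro (cutD κ N)).mat (2 * (2 * j) + 1) = 1 := cut_mat κ (by omega)
  let S : Finset ((y : List Bool) × (Basis (F.wit.eval y.length) → ℂ)) :=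
    (Ys d r L X).sigma fun y => univ.image fun w : Basis (F.wit.eval y.length) => ket w
  have hS : ∀ i ∈ S, IsState i.2 := by
    intro i hi
    have h1 := (mem_sigma.1 hi).2
    rw [mem_image] at h1
    obtain ⟨w, _, hw⟩ := h1
    rw [← hw]
    exact ket_norm w
  have hy : ∀ i ∈ S, i.1.length ≤ L := fun i hi => len_Ys (mem_sigma.1 hi).1
  have hcard : S.card ≤ 2 ^ (3 * r + 5 + F.wit.eval L) := by
    simp only [S]
    rw [card_sigma]
    refine (sum_le_card_nsmul _ _ (2 ^ F.wit.eval L) fun y hy => ?_).trans ?_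
    · refine card_image_le.trans ?_
      rw [card_univ]
      have h1 : Fintype.card (Basis (F.wit.eval y.length)) = 2 ^ F.wit.eval y.length := by simp
      rw [h1]
      exact Nat.pow_le_pow_right (by norm_num) (eval_mono _ (len_Ys hy))
    · rw [smul_eq_mul]
      calc (Ys d r L X).card * 2 ^ F.wit.eval L ≤ 2 ^ (2 * r + 3) * 2 ^ F.wit.eval L :=
            Nat.mul_le_mul_right _ (card_Ys d r L hXc)
        _ = 2 ^ (2 * r + 3 + F.wit.eval L) := by rw [← pow_add]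
        _ ≤ _ := Nat.pow_le_pow_right (by norm_num) (by omega)
  obtain ⟨a, ha1, ha2⟩ := fooling hsz (δ := 1) le_rfl A (cutD κ N) h0 hX S hS hy hcard
  obtain ⟨ha3, ha4⟩ := ha2.self_of_nhds
  obtain ⟨b, hb, hb2⟩ := exists_b r X (by omega) fun h x =>
    Alt (p.eval (inp d h x).length)
      (fun w => 1 / 2 ≤ F.accC A (ro (cutD κ N)) (inp d h x) w) k true []
  refine ⟨up (cutD κ N) (2 * (2 * j) + 1) (mk b a), 2 * (2 * j) + 2 + T,
    up_QQ (cut_QQ hκ N) fun _ u => ?_, fun s hs => up_lt (by omega) _ hs, ?_⟩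
  · unfold mk
    split_ifs
    · exact ha1 u
    · exact Or.inl rfl
  intro κ'' hκ'' h hh hcon
  refine hb2 (h (2 * j)) (hh _) fun x hx => ?_
  have hxl := hX x hx
  have h1 := hcon x
  rw [hxl] at h1
  have hm : κ'' (2 * (2 * j) + 1) = lift (mk b a) := by
    rw [hκ'' _ (by omega)]
    exact Function.update_self _ _ _
  have h2 := mem_LL_iff hm hxl (ha3 x hx)
  have hlen : (inp d (h (2 * j)) x).length ≤ L := length_inp (hh _) hxl
  have h3 : ∀ w : List Bool, |F.accC A (ro κ'') (inp d (h (2 * j)) x) w -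
      F.accC A (ro (cutD κ N)) (inp d (h (2 * j)) x) w| ≤ 1 / 8 := by
    intro w
    unfold Verifier.accC
    rw [acc_ro_congr hsz (N' := 2 * (2 * j) + 2 + T) (by omega) hκ'' A hlen]
    exact ha4 ⟨inp d (h (2 * j)) x, ket fun i => w.getD i.1 false⟩ (mem_sigma.2
      ⟨mem_Ys (hh _) hx hlen, mem_image.2 ⟨_, mem_univ _, rfl⟩⟩) b hb
  rw [← h2]
  constructor
  · intro h4
    refine Pool.Agent.H10x.QW.Alt.mono (fun w hw => ?_) _ _ _ (h1.1 h4)
    have h5 := abs_le.1 (h3 w)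
    linarith [h5.2]
  · intro h4
    by_contra h5
    refine Pool.Agent.H10x.QW.Alt.not k true [] (Pool.Agent.H10x.QW.Alt.mono (fun w hw => ?_) _ _ _
      (h1.2 h5)) h4
    have h6 := abs_le.1 (h3 w)
    rw [not_le]
    linarith [h6.1]

/-- **One stage for the optimal witnesses.** -/
theorem stage2 (A : Oracle) {W : (p : ℕ) → Set (Basis p → ℂ)} (hW : ∀ p, (W p).Countable)
    (d : Bool) (F : Verifier) (q : Polynomial ℕ) (N : ℕ) (κ : Dat)
    (hκ : ∀ s, QQ s (κ s)) : ∃ (κ' : Dat) (N' : ℕ), (∀ s, QQ s (κ' s)) ∧ (∀ s < N, κ' s = κ s) ∧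
      ∀ κ'' : Dat, (∀ s < N', κ'' s = κ' s) → Req2 A W d F q κ'' := by
  classical
  obtain ⟨T, j, hNj, hsz⟩ := exists_sz F q N
  obtain ⟨X, hX, hXc⟩ := exists_X hsz
  set L := 2 * q.eval (2 * j) + 1 + 2 * j with hL
  set r := q.eval (2 * j) with hr
  set m := 2 * (2 * j) + 0 with hm
  have h0 : (ro (cutD κ N)).mat m = 1 := cut_mat κ (by omega)
  -- the universal states
  let V : Finset (List Bool) → (y : List Bool) → Set (Basis (F.wit.eval y.length) → ℂ) :=
    fun b y => {φ | φ ∈ W (F.wit.eval y.length) ∧ IsState φ ∧ ∀ ρ : Basis m → ℝ, DD b ρ ≠ 0 →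
      Eig F A (ro (up (cutD κ N) m (mk b ρ))) y φ}
  choose R hR1 hR2 hR3 using fun (b : Finset (List Bool)) (y : List Bool) =>
    exists_reps (V b y) fun φ hφ => hφ.2.1
  let S : Finset ((y : List Bool) × (Basis (F.wit.eval y.length) → ℂ)) :=
    (Ys d r L X).sigma fun y => X.powerset.biUnion fun b => R b y
  have hS : ∀ i ∈ S, IsState i.2 := by
    intro i hi
    have h1 := (mem_sigma.1 hi).2
    rw [mem_biUnion] at h1
    obtain ⟨b, _, hb⟩ := h1
    exact (hR1 b _ _ hb).2.1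
  have hy : ∀ i ∈ S, i.1.length ≤ L := fun i hi => len_Ys (mem_sigma.1 hi).1
  have hcard : S.card ≤ 2 ^ (3 * r + 5 + F.wit.eval L) := by
    simp only [S]
    rw [card_sigma]
    refine (sum_le_card_nsmul _ _ (2 ^ (r + 2) * 2 ^ F.wit.eval L) fun y hy => ?_).trans ?_
    · refine card_biUnion_le.trans ?_
      refine (sum_le_card_nsmul _ _ (2 ^ F.wit.eval L) fun b _ => ?_).trans ?_
      · exact (hR3 b y).trans (Nat.pow_le_pow_right (by norm_num) (eval_mono _ (len_Ys hy)))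
      · rw [smul_eq_mul, card_powerset, hXc]
    · rw [smul_eq_mul]
      calc (Ys d r L X).card * (2 ^ (r + 2) * 2 ^ F.wit.eval L) ≤
            2 ^ (2 * r + 3) * (2 ^ (r + 2) * 2 ^ F.wit.eval L) :=
            Nat.mul_le_mul_right _ (card_Ys d r L hXc)
        _ = 2 ^ (3 * r + 5 + F.wit.eval L) := by
            rw [← pow_add, ← pow_add]
            congr 1
            ring
  obtain ⟨a, _, ha2⟩ := fooling hsz (δ := 0) (by norm_num) A (cutD κ N) h0 hX S hS hy hcard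
  obtain ⟨t, ht1, ht2, ht3⟩ := eventually_nhds_iff.1 ha2
  obtain ⟨b, hb, hb2⟩ := exists_b r X (by omega) fun h x =>
    ∃ i ∈ S, i.1 = inp d h x ∧ 1 / 2 ≤ F.acc A (ro (cutD κ N)) i.1 i.2
  have hDt : ∀ ρ ∈ t, DD b ρ ≠ 0 := fun ρ hρ =>
    Finset.prod_ne_zero_iff.2 fun x hx => (ht1 ρ hρ).1 x (hb hx)
  -- a generic vector
  let I : Type := (y : List Bool) × {φ : Basis (F.wit.eval y.length) → ℂ //
    φ ∈ W (F.wit.eval y.length) ∧ ∃ ρ : Basis m → ℝ, DD b ρ ≠ 0 ∧
      ¬ Eig F A (ro (up (cutD κ N) m (mk b ρ))) y φ}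
  have hI : ∀ y : List Bool, Countable {φ : Basis (F.wit.eval y.length) → ℂ //
    φ ∈ W (F.wit.eval y.length) ∧ ∃ ρ : Basis m → ℝ, DD b ρ ≠ 0 ∧
      ¬ Eig F A (ro (up (cutD κ N) m (mk b ρ))) y φ} := fun y =>
    ((hW (F.wit.eval y.length)).mono fun φ hφ => hφ.1).to_subtype
  have hI' : Countable I := inferInstance
  obtain ⟨ρ, hρt, hρ⟩ := generic (F := F) A (cutD κ N) b ht2 ⟨a, ht3⟩ hDt (I := I) (fun i => i.1)
    (fun i => i.2.1) (fun i => i.2.2.2)
  obtain ⟨ha3, ha4⟩ := ht1 ρ hρt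
  refine ⟨up (cutD κ N) m (mk b ρ), m + 1 + T, up_QQ (cut_QQ hκ N) fun h => ?_,
    fun s hs => up_lt (by omega) _ hs, ?_⟩
  · omega
  intro κ'' hκ'' h hh hcon
  refine hb2 (h (2 * j)) (hh _) fun x hx => ?_
  have hxl := hX x hx
  have h1 := hcon x
  rw [hxl] at h1
  have hmm : κ'' (2 * (2 * j) + 0) = lift (mk b ρ) := by
    rw [hκ'' _ (by omega)]
    exact Function.update_self _ _ _
  have h2 := mem_LL_iff hmm hxl (ha3 x hx)
  have hlen : (inp d (h (2 * j)) x).length ≤ L := length_inp (hh _) hxl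
  have hcongr := fun φ => acc_ro_congr hsz (N' := m + 1 + T) (by omega) hκ'' A hlen φ
  rw [← h2]
  set y := inp d (h (2 * j)) x with hyy
  constructor
  · intro h4
    obtain ⟨φ, h5, h6, h7, h8⟩ := h1.1 h4
    have h9 : Eig F A (ro (up (cutD κ N) m (mk b ρ))) y φ := by
      intro w
      rw [eigen h6 (fun φ' hφ' => by rw [← hcongr, ← hcongr]; exact h8 φ' hφ') (ket w), dot_ket]
    have h10 : φ ∈ V b y := by
      refine ⟨h5, h6, ?_⟩
      by_contra hc
      push Not at hc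
      exact hρ ⟨y, ⟨φ, h5, hc⟩⟩ h9
    obtain ⟨φ', h11, h12⟩ := hR2 b y φ h10
    have h13 := hR1 b y φ' h11
    have h14 := acc_eq h9 (h13.2.2 ρ (hDt ρ hρt)) h12
    have hmem : (⟨y, φ'⟩ : (y : List Bool) × (Basis (F.wit.eval y.length) → ℂ)) ∈ S :=
      mem_sigma.2 ⟨mem_Ys (hh _) hx hlen, mem_biUnion.2 ⟨b, mem_powerset.2 hb, h11⟩⟩
    refine ⟨⟨y, φ'⟩, hmem, rfl, ?_⟩
    have h15 := abs_le.1 (ha4 _ hmem b hb)
    rw [hcongr, h14] at h7
    linarith [h15.2]
  · rintro ⟨i, hi, hi1, hi2⟩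
    by_contra h5
    have h6 := h1.2 h5
    have h15 := abs_le.1 (ha4 i hi b hb)
    obtain ⟨y', φ'⟩ := i
    simp only at hi1
    subst hi1
    have h16 := h6 φ' (hS _ hi)
    rw [hcongr] at h16
    linarith [h15.1]

end Pool.Agent.H10x.OW
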