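import Pool.Agent.H10x.QW.Approx

/-!
# The acceptance probability as a hermitian form
-/

set_option autoImplicit false

namespace Pool.Agent.H10x.OW

open Pool.Agent.NPC Pool.Agent.H620R2.Gauge Finset
open Pool.Agent.H9x.Q (Basis bit ket ket_norm)
open Pool.Agent.R562.QH (nrm nrm_sq nrm_nonneg nrm_add_le nrm_congr)
open Pool.Agent.H10x.QW (UOracle Gate Verifier IsState rd wr run start_norm nrm_run nrm_eq_one)

variable {m : ℕ}

theorem act_add (A : Oracle) (U : UOracle) (g : Gate) (ψ φ : Basis m → ℂ) :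
    g.act A U (ψ + φ) = g.act A U ψ + g.act A U φ := by
  cases g with
  | std g =>
    cases g with
    | had q =>
      funext z
      simp only [Gate.act, Pool.Agent.H9x.Q.Gate.act, Pi.add_apply]
      split_ifs <;> ring
    | tgate q =>
      funext z
      simp only [Gate.act, Pool.Agent.H9x.Q.Gate.act, Pi.add_apply]
      ring
    | cnot q r =>
      funext z
      simp only [Gate.act, Pool.Agent.H9x.Q.Gate.act, Pi.add_apply]
      split_ifs <;> rfl
    | query l r =>
      funext z
      simp only [Gate.act, Pool.Agent.H9x.Q.Gate.act, Pi.add_apply]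
      split_ifs <;> rfl
  | uni c l =>
    funext z
    simp only [Gate.act, Pi.add_apply]
    split_ifs
    · rw [← sum_add_distrib]
      exact sum_congr rfl fun w _ => by ring
    · rfl

theorem act_smul (A : Oracle) (U : UOracle) (g : Gate) (c : ℂ) (ψ : Basis m → ℂ) :
    g.act A U (c • ψ) = c • g.act A U ψ := by
  cases g with
  | std g =>
    cases g with
    | had q =>
      funext z
      simp only [Gate.act, Pool.Agent.H9x.Q.Gate.act, Pi.smul_apply, smul_eq_mul]
      split_ifs <;> ring
    | tgate q =>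
      funext z
      simp only [Gate.act, Pool.Agent.H9x.Q.Gate.act, Pi.smul_apply, smul_eq_mul]
      ring
    | cnot q r =>
      funext z
      simp only [Gate.act, Pool.Agent.H9x.Q.Gate.act, Pi.smul_apply, smul_eq_mul]
      split_ifs <;> rfl
    | query l r =>
      funext z
      simp only [Gate.act, Pool.Agent.H9x.Q.Gate.act, Pi.smul_apply, smul_eq_mul]
      split_ifs <;> rfl
  | uni c l =>
    funext z
    simp only [Gate.act, Pi.smul_apply, smul_eq_mul]
    split_ifs
    · rw [mul_sum]
      exact sum_congr rfl fun w _ => by ring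
    · rfl

theorem run_add (A : Oracle) (U : UOracle) (C : List Gate) : ∀ ψ φ : Basis m → ℂ,
    run A U C (ψ + φ) = run A U C ψ + run A U C φ := by
  induction C with
  | nil => intro ψ φ; rfl
  | cons g C ih => intro ψ φ; simp only [run]; rw [act_add, ih]

theorem run_smul (A : Oracle) (U : UOracle) (C : List Gate) (c : ℂ) : ∀ ψ : Basis m → ℂ,
    run A U C (c • ψ) = c • run A U C ψ := by
  induction C with
  | nil => intro ψ; rfl
  | cons g C ih => intro ψ; simp only [run]; rw [act_smul, ih]

theorem run_append (A : Oracle) (U : UOracle) (C C' : List Gate) : ∀ ψ : Basis m → ℂ,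
    run A U (C ++ C') ψ = run A U C' (run A U C ψ) := by
  induction C with
  | nil => intro ψ; rfl
  | cons g C ih => intro ψ; simp only [List.cons_append, run]; rw [ih]

/-- the final state of the verifier -/
noncomputable def fin (F : Verifier) (A : Oracle) (U : UOracle) (y : List Bool)
    (φ : Basis (F.wit.eval y.length) → ℂ) : Basis (F.qubits y.length) → ℂ :=
  run A U (F.circ y.length) (F.start y φ)

variable (F : Verifier) (A : Oracle) (U : UOracle) (y : List Bool)

theorem fin_add (φ φ' : Basis (F.wit.eval y.length) → ℂ) :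
    fin F A U y (φ + φ') = fin F A U y φ + fin F A U y φ' := by
  unfold fin
  rw [← run_add]
  congr 1
  funext z
  rw [Pi.add_apply]
  unfold Verifier.start
  split_ifs
  · rfl
  · rw [add_zero]

theorem fin_smul (c : ℂ) (φ : Basis (F.wit.eval y.length) → ℂ) :
    fin F A U y (c • φ) = c • fin F A U y φ := by
  unfold fin
  rw [← run_smul]
  congr 1
  funext z
  rw [Pi.smul_apply]
  unfold Verifier.start
  split_ifs
  · rfl
  · rw [smul_zero]

theorem sum_fin (φ : Basis (F.wit.eval y.length) → ℂ) :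
    ∑ z, ‖fin F A U y φ z‖ ^ 2 = ∑ w, ‖φ w‖ ^ 2 := by
  rw [← start_norm F y φ, ← nrm_sq, ← nrm_sq]
  unfold fin
  rw [nrm_run]

/-- the hermitian form of the acceptance probability -/
noncomputable def frm (φ φ' : Basis (F.wit.eval y.length) → ℂ) : ℂ :=
  ∑ z, if bit z y.length then star (fin F A U y φ z) * fin F A U y φ' z else 0

theorem frm_add (φ φ₁ φ₂ : Basis (F.wit.eval y.length) → ℂ) :
    frm F A U y φ (φ₁ + φ₂) = frm F A U y φ φ₁ + frm F A U y φ φ₂ := by
  unfold frm
  rw [fin_add, ← sum_add_distrib]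
  refine sum_congr rfl fun z _ => ?_
  rw [Pi.add_apply]
  split_ifs <;> ring

theorem frm_smul (φ φ' : Basis (F.wit.eval y.length) → ℂ) (c : ℂ) :
    frm F A U y φ (c • φ') = c * frm F A U y φ φ' := by
  unfold frm
  rw [fin_smul, mul_sum]
  refine sum_congr rfl fun z _ => ?_
  rw [Pi.smul_apply, smul_eq_mul]
  split_ifs <;> ring

theorem frm_star (φ φ' : Basis (F.wit.eval y.length) → ℂ) :
    frm F A U y φ φ' = star (frm F A U y φ' φ) := by
  unfold frm
  rw [star_sum]
  refine sum_congr rfl fun z _ => ?_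
  split_ifs
  · rw [star_mul, star_star, mul_comm]
  · rw [star_zero]

theorem frm_self (φ : Basis (F.wit.eval y.length) → ℂ) :
    frm F A U y φ φ = ((F.acc A U y φ : ℝ) : ℂ) := by
  unfold frm Verifier.acc
  push_cast
  refine sum_congr rfl fun z _ => ?_
  unfold fin
  split_ifs
  · rw [RCLike.star_def, Complex.conj_mul']
    push_cast
    rfl
  · simp

theorem acc_nonneg (φ : Basis (F.wit.eval y.length) → ℂ) : 0 ≤ F.acc A U y φ := by
  unfold Verifier.acc
  exact sum_nonneg fun z _ => by split_ifs <;> positivity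

theorem acc_le (φ : Basis (F.wit.eval y.length) → ℂ) : F.acc A U y φ ≤ ∑ w, ‖φ w‖ ^ 2 := by
  rw [← sum_fin F A U y φ]
  unfold Verifier.acc fin
  exact sum_le_sum fun z _ => by split_ifs <;> first | exact le_rfl | positivity

/-- the scalar product -/
noncomputable def dot {p : ℕ} (φ φ' : Basis p → ℂ) : ℂ := ∑ w, star (φ w) * φ' w

theorem dot_self {p : ℕ} (φ : Basis p → ℂ) : dot φ φ = ((∑ w, ‖φ w‖ ^ 2 : ℝ) : ℂ) := by
  unfold dot
  push_cast
  refine sum_congr rfl fun w _ => ?_
  rw [RCLike.star_def, Complex.conj_mul']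

theorem dot_state {p : ℕ} {φ : Basis p → ℂ} (h : IsState φ) : dot φ φ = 1 := by
  rw [dot_self, h]
  norm_num

theorem dot_add {p : ℕ} (φ φ₁ φ₂ : Basis p → ℂ) : dot φ (φ₁ + φ₂) = dot φ φ₁ + dot φ φ₂ := by
  unfold dot
  rw [← sum_add_distrib]
  exact sum_congr rfl fun w _ => by rw [Pi.add_apply]; ring

theorem dot_smul {p : ℕ} (φ φ' : Basis p → ℂ) (c : ℂ) : dot φ (c • φ') = c * dot φ φ' := by
  unfold dot
  rw [mul_sum]
  exact sum_congr rfl fun w _ => by rw [Pi.smul_apply, smul_eq_mul]; ring

theorem dot_star {p : ℕ} (φ φ' : Basis p → ℂ) : dot φ φ' = star (dot φ' φ) := by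
  unfold dot
  rw [star_sum]
  exact sum_congr rfl fun w _ => by rw [star_mul, star_star, mul_comm]

theorem dot_ket {p : ℕ} (w : Basis p) (φ : Basis p → ℂ) : dot (ket w) φ = φ w := by
  unfold dot ket
  rw [Finset.sum_eq_single w]
  · simp
  · intro w' _ h
    rw [if_neg h]
    simp
  · intro h
    exact absurd (mem_univ _) h

theorem dot_zero {p : ℕ} (φ : Basis p → ℂ) : dot φ 0 = 0 := by
  unfold dot
  simp

theorem dot_sum {p : ℕ} {ι : Type} (s : Finset ι) (φ : Basis p → ℂ) (f : ι → Basis p → ℂ) :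
    dot φ (∑ i ∈ s, f i) = ∑ i ∈ s, dot φ (f i) := by
  classical
  induction s using Finset.induction_on with
  | empty => rw [sum_empty, sum_empty, dot_zero]
  | insert i s hi ih => rw [sum_insert hi, sum_insert hi, dot_add, ih]

/-- a positive form vanishes on the vectors where it is zero -/
theorem form_zero {V : Type} [AddCommGroup V] [Module ℂ V] (H : V → V → ℂ)
    (hadd : ∀ u v w, H u (v + w) = H u v + H u w) (hsmul : ∀ u v (c : ℂ), H u (c • v) = c * H u v)
    (hstar : ∀ u v, H u v = star (H v u)) (hpos : ∀ v, 0 ≤ (H v v).re) {φ : V}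
    (h0 : (H φ φ).re = 0) (k : V) : H k φ = 0 := by
  set G := H k φ with hG
  set K := (H k k).re with hK
  have hK0 : 0 ≤ K := hpos k
  have hadd' : ∀ u v w, H (u + v) w = H u w + H v w := fun u v w => by
    rw [hstar (u + v) w, hadd, star_add, ← hstar, ← hstar]
  have hsmul' : ∀ u v (c : ℂ), H (c • u) v = star c * H u v := fun u v c => by
    rw [hstar (c • u) v, hsmul, star_mul, ← hstar, mul_comm]
  set t : ℝ := 1 / (K + 1) with ht
  have ht0 : 0 < t := by positivity
  set c : ℂ := -((t : ℝ) : ℂ) * G with hc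
  have h1 : H (φ + c • k) (φ + c • k) =
      H φ φ + c * star G + (star c * G + star c * (c * H k k)) := by
    rw [hadd, hadd', hadd', hsmul, hsmul, hsmul', hsmul', hG, hstar φ k]
    ring
  have h2 := hpos (φ + c • k)
  rw [h1] at h2
  have h3 : (c * star G).re = -(t * ‖G‖ ^ 2) := by
    rw [hc, mul_assoc, RCLike.star_def, Complex.mul_conj', ← Complex.ofReal_pow,
      ← Complex.ofReal_neg, ← Complex.ofReal_mul, Complex.ofReal_re]
    ring
  have h4 : (star c * G).re = -(t * ‖G‖ ^ 2) := by
    rw [hc, star_mul, RCLike.star_def, map_neg, Complex.conj_ofReal]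
    rw [show (starRingEnd ℂ) G * -((t : ℝ) : ℂ) * G = -((t : ℝ) : ℂ) * ((starRingEnd ℂ) G * G) by
      ring, Complex.conj_mul', ← Complex.ofReal_pow,
      ← Complex.ofReal_neg, ← Complex.ofReal_mul, Complex.ofReal_re]
    ring
  have h5 : (star c * (c * H k k)).re = t ^ 2 * ‖G‖ ^ 2 * K := by
    have e1 : star c * (c * H k k) = (((t ^ 2 * ‖G‖ ^ 2 : ℝ)) : ℂ) * H k k := by
      rw [← mul_assoc]
      congr 1
      rw [RCLike.star_def, Complex.conj_mul', hc, norm_mul, norm_neg, Complex.norm_real,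
        Real.norm_eq_abs, abs_of_pos ht0]
      push_cast
      ring
    rw [e1, Complex.re_ofReal_mul]
  rw [Complex.add_re, Complex.add_re, Complex.add_re, h0, h3, h4, h5] at h2
  have h6 : t * (K + 1) = 1 := by
    rw [ht]
    field_simp
  have h7 : ‖G‖ ^ 2 = 0 := by
    by_contra hcon
    have h8 : 0 < ‖G‖ ^ 2 := lt_of_le_of_ne (sq_nonneg _) (Ne.symm hcon)
    have h9 : t ^ 2 * ‖G‖ ^ 2 * K = t * ‖G‖ ^ 2 * (t * K) := by ring
    have h10 : t * K ≤ 1 := by nlinarith
    have h11 : 0 < t * ‖G‖ ^ 2 := by positivity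
    nlinarith
  exact norm_eq_zero.1 (pow_eq_zero_iff (by norm_num) |>.1 h7)

variable {F A U y}

/-- the probabilities of the multiples of a state -/
theorem acc_le_mul {φ : Basis (F.wit.eval y.length) → ℂ}
    (hmax : ∀ φ', IsState φ' → F.acc A U y φ' ≤ F.acc A U y φ)
    (v : Basis (F.wit.eval y.length) → ℂ) :
    F.acc A U y v ≤ F.acc A U y φ * ∑ w, ‖v w‖ ^ 2 := by
  set s := ∑ w, ‖v w‖ ^ 2 with hs
  have hs0 : 0 ≤ s := sum_nonneg fun w _ => sq_nonneg _
  rcases hs0.eq_or_lt with h0 | h0
  · have h1 := acc_le F A U y v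
    rw [← hs, ← h0] at h1
    rw [← h0, mul_zero]
    exact h1
  · set c : ℂ := ((1 / Real.sqrt s : ℝ) : ℂ) with hc
    have hcn : ‖c‖ ^ 2 = 1 / s := by
      rw [hc, Complex.norm_real, Real.norm_eq_abs, sq_abs, div_pow, Real.sq_sqrt hs0, one_pow]
    have h1 : IsState (c • v) := by
      unfold IsState
      have : ∀ w, ‖(c • v) w‖ ^ 2 = 1 / s * ‖v w‖ ^ 2 := fun w => by
        rw [Pi.smul_apply, smul_eq_mul, norm_mul, mul_pow, hcn]
      rw [sum_congr rfl fun w _ => this w, ← mul_sum, ← hs]
      field_simp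
    have h2 := hmax _ h1
    have h3 : F.acc A U y (c • v) = 1 / s * F.acc A U y v := by
      unfold Verifier.acc
      rw [mul_sum]
      refine sum_congr rfl fun z _ => ?_
      have e := congrFun (fin_smul F A U y c v) z
      unfold fin at e
      rw [e, Pi.smul_apply, smul_eq_mul, norm_mul, mul_pow, hcn]
      split_ifs <;> ring
    rw [h3] at h2
    have h4 : F.acc A U y v = s * (1 / s * F.acc A U y v) := by
      field_simp
    rw [h4, mul_comm (F.acc A U y φ)]
    exact mul_le_mul_of_nonneg_left h2 hs0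

/-- **An optimal state is an eigenvector.** -/
theorem eigen {φ : Basis (F.wit.eval y.length) → ℂ} (hφ : IsState φ)
    (hmax : ∀ φ', IsState φ' → F.acc A U y φ' ≤ F.acc A U y φ)
    (k : Basis (F.wit.eval y.length) → ℂ) :
    frm F A U y k φ = ((F.acc A U y φ : ℝ) : ℂ) * dot k φ := by
  set lam := F.acc A U y φ with hlam
  have h := form_zero (fun u v : Basis (F.wit.eval y.length) → ℂ =>
    ((lam : ℝ) : ℂ) * dot u v - frm F A U y u v)
    (fun u v w => by rw [dot_add, frm_add]; ring)
    (fun u v c => by rw [dot_smul, frm_smul]; ring)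
    (fun u v => by
      rw [star_sub, star_mul, ← dot_star, ← frm_star, RCLike.star_def, Complex.conj_ofReal]
      ring)
    (fun v => by
      rw [dot_self, frm_self, ← Complex.ofReal_mul, ← Complex.ofReal_sub, Complex.ofReal_re]
      have := acc_le_mul hmax v
      linarith) (φ := φ) (by
      rw [dot_state hφ, frm_self, mul_one, ← hlam]
      simp) k
  exact (sub_eq_zero.1 h).symm

/-- eigenvectors which are not orthogonal have the same eigenvalue -/
theorem acc_eq {φ φ' : Basis (F.wit.eval y.length) → ℂ}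
    (h : ∀ w, frm F A U y (ket w) φ = ((F.acc A U y φ : ℝ) : ℂ) * φ w)
    (h' : ∀ w, frm F A U y (ket w) φ' = ((F.acc A U y φ' : ℝ) : ℂ) * φ' w)
    (hne : dot φ' φ ≠ 0) : F.acc A U y φ = F.acc A U y φ' := by
  have key : ∀ (u v : Basis (F.wit.eval y.length) → ℂ) (c : ℝ),
      (∀ w, frm F A U y (ket w) v = (c : ℂ) * v w) → frm F A U y u v = (c : ℂ) * dot u v := by
    intro u v c hv
    have h1 : u = ∑ w, u w • ket w := by
      funext z
      rw [Finset.sum_apply, Finset.sum_eq_single z]
      · simp [ket]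
      · intro w _ hw
        simp [ket, Ne.symm hw]
      · intro h
        exact absurd (mem_univ _) h
    have h2 : ∀ s : Finset (Basis (F.wit.eval y.length)), frm F A U y v (∑ w ∈ s, u w • ket w) =
        ∑ w ∈ s, u w * frm F A U y v (ket w) := by
      intro s
      classical
      induction s using Finset.induction_on with
      | empty =>
        rw [sum_empty, sum_empty]
        have := frm_smul F A U y v 0 0
        rw [zero_smul, zero_mul] at this
        exact this
      | insert i s hi ih => rw [sum_insert hi, sum_insert hi, frm_add, frm_smul, ih]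
    have h3 : frm F A U y v u = ∑ w, u w * frm F A U y v (ket w) := by
      conv_lhs => rw [h1]
      exact h2 univ
    rw [frm_star, h3, star_sum]
    unfold dot
    rw [mul_sum]
    refine sum_congr rfl fun w _ => ?_
    rw [star_mul, ← frm_star, hv]
    ring
  have h1 := key φ' φ _ h
  have h2 := key φ φ' _ h'
  rw [frm_star, h1, star_mul, ← dot_star, RCLike.star_def, Complex.conj_ofReal] at h2
  have h3 : dot φ φ' ≠ 0 := by
    rw [dot_star]
    exact star_ne_zero.2 hne
  rw [mul_comm] at h2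
  have h4 := mul_right_cancel₀ h3 h2
  exact_mod_cast h4

/-- **Finitely many representatives.** -/
theorem exists_reps {p : ℕ} (V : Set (Basis p → ℂ)) (hV : ∀ φ ∈ V, IsState φ) :
    ∃ S : Finset (Basis p → ℂ), (∀ φ ∈ S, φ ∈ V) ∧ (∀ φ ∈ V, ∃ φ' ∈ S, dot φ' φ ≠ 0) ∧
      S.card ≤ 2 ^ p := by
  classical
  set Q : ℕ → Prop := fun n => ∃ S : Finset (Basis p → ℂ), (∀ φ ∈ S, φ ∈ V) ∧
    (∀ φ ∈ S, ∀ φ' ∈ S, φ ≠ φ' → dot φ φ' = 0) ∧ S.card = n with hQ
  have hbound : ∀ n, Q n → n ≤ 2 ^ p := by
    rintro n ⟨S, h1, h2, rfl⟩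
    have hli : LinearIndependent ℂ (fun φ : S => (φ : Basis p → ℂ)) := by
      rw [linearIndependent_iff']
      intro s g hg i hi
      have h3 : dot (i : Basis p → ℂ) (∑ j ∈ s, g j • (j : Basis p → ℂ)) = g i := by
        rw [dot_sum, Finset.sum_eq_single i]
        · rw [dot_smul, dot_state (hV _ (h1 _ i.2)), mul_one]
        · intro j _ hj
          rw [dot_smul, h2 _ i.2 _ j.2 (fun h => hj (Subtype.ext h.symm)), mul_zero]
        · intro h
          exact absurd hi h
      rw [hg, dot_zero] at h3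
      exact h3.symm
    have h3 := hli.fintype_card_le_finrank
    rw [Module.finrank_fintype_fun_eq_card] at h3
    simpa using h3
  have h0 : Q 0 := ⟨∅, by simp, by simp, rfl⟩
  have hex : ∃ n, Q n ∧ ∀ n', Q n' → n' ≤ n :=
    ⟨Nat.findGreatest Q (2 ^ p), Nat.findGreatest_spec (Nat.zero_le _) h0, fun n' hn' =>
      Nat.le_findGreatest (hbound n' hn') hn'⟩
  obtain ⟨n, ⟨S, h1, h2, h3⟩, h4⟩ := hex
  refine ⟨S, h1, fun φ hφ => ?_, by rw [h3]; exact hbound n ⟨S, h1, h2, h3⟩⟩
  by_contra hcon
  push Not at hcon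
  have hφS : φ ∉ S := fun h => by
    have := hcon φ h
    rw [dot_state (hV φ hφ)] at this
    exact one_ne_zero this
  have h5 := h4 (n + 1) ⟨insert φ S, fun φ' hφ' => ?_, fun φ₁ h₁ φ₂ h₂ hne => ?_, by
    rw [card_insert_of_notMem hφS, h3]⟩
  · omega
  · rcases mem_insert.1 hφ' with rfl | h
    · exact hφ
    · exact h1 _ h
  · rcases mem_insert.1 h₁ with e₁ | h₁
    · rcases mem_insert.1 h₂ with e₂ | h₂
      · exact absurd (e₁.trans e₂.symm) hne
      · rw [e₁, dot_star, hcon _ h₂, star_zero]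
    · rcases mem_insert.1 h₂ with e₂ | h₂
      · rw [e₂]
        exact hcon _ h₁
      · exact h2 _ h₁ _ h₂ hne

end Pool.Agent.H10x.OW
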