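import Pool.Agent.H10x.OW.Ref

/-!
# A large family of nearly orthogonal subset states
-/

set_option autoImplicit false

namespace Pool.Agent.H10x.OW

open Pool.Agent.NPC Pool.Agent.H620R2.Gauge Finset
open Pool.Agent.H9x.Q (Basis bit ket)
open Pool.Agent.R562.QH (nrm nrm_sq nrm_nonneg nrm_add_le nrm_congr)
open Pool.Agent.H10x.QW (xs xs_eq wr rd)

/-- **Bellman's inequality.** -/
theorem bellman {C V : Type} [Fintype V] (B : Finset C) (e : C → V → ℝ) {δ : ℝ} (hδ : 0 ≤ δ)
    (h1 : ∀ c ∈ B, ∑ v, e c v ^ 2 ≤ 1)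
    (h2 : ∀ c ∈ B, ∀ c' ∈ B, c ≠ c' → |∑ v, e c v * e c' v| ≤ δ) (w : V → ℝ) :
    ∑ c ∈ B, (∑ v, e c v * w v) ^ 2 ≤ (1 + B.card * δ) * ∑ v, w v ^ 2 := by
  classical
  set a : C → ℝ := fun c => ∑ v, e c v * w v with ha
  set S := ∑ c ∈ B, a c ^ 2 with hS
  have hS0 : 0 ≤ S := sum_nonneg fun c _ => sq_nonneg _
  have hw0 : 0 ≤ ∑ v, w v ^ 2 := sum_nonneg fun c _ => sq_nonneg _
  have e1 : S = ∑ v, (∑ c ∈ B, a c * e c v) * w v := by
    rw [hS]
    have : ∀ v, (∑ c ∈ B, a c * e c v) * w v = ∑ c ∈ B, a c * (e c v * w v) := fun v => by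
      rw [sum_mul]
      exact sum_congr rfl fun c _ => by ring
    rw [sum_congr rfl fun v _ => this v, sum_comm]
    refine sum_congr rfl fun c _ => ?_
    rw [← mul_sum, sq]
  have e2 : ∑ v, (∑ c ∈ B, a c * e c v) ^ 2 ≤ (1 + B.card * δ) * S := by
    have e3 : ∑ v, (∑ c ∈ B, a c * e c v) ^ 2 =
        ∑ c ∈ B, ∑ c' ∈ B, a c * a c' * ∑ v, e c v * e c' v := by
      have : ∀ v, (∑ c ∈ B, a c * e c v) ^ 2 =
          ∑ c ∈ B, ∑ c' ∈ B, a c * a c' * (e c v * e c' v) := fun v => by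
        rw [sq, sum_mul_sum]
        exact sum_congr rfl fun c _ => sum_congr rfl fun c' _ => by ring
      rw [sum_congr rfl fun v _ => this v, sum_comm]
      refine sum_congr rfl fun c _ => ?_
      rw [sum_comm]
      refine sum_congr rfl fun c' _ => ?_
      rw [← mul_sum]
    have e4 : ∀ c ∈ B, ∀ c' ∈ B, a c * a c' * ∑ v, e c v * e c' v ≤
        (if c = c' then a c ^ 2 else 0) + (a c ^ 2 + a c' ^ 2) / 2 * δ := by
      intro c hc c' hc'
      have h5 : |a c * a c'| ≤ (a c ^ 2 + a c' ^ 2) / 2 := by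
        rw [abs_le]
        constructor <;> nlinarith [sq_nonneg (a c + a c'), sq_nonneg (a c - a c')]
      by_cases h : c = c'
      · subst h
        rw [if_pos rfl]
        have h6 : ∑ v, e c v * e c v ≤ 1 := by
          refine le_trans (le_of_eq ?_) (h1 c hc)
          exact sum_congr rfl fun v _ => (sq _).symm
        have h7 : 0 ≤ (a c ^ 2 + a c ^ 2) / 2 * δ := by positivity
        have h8 : a c * a c * ∑ v, e c v * e c v ≤ a c * a c * 1 :=
          mul_le_mul_of_nonneg_left h6 (mul_self_nonneg _)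
        nlinarith
      · rw [if_neg h, zero_add]
        refine (le_abs_self _).trans ?_
        rw [abs_mul]
        exact mul_le_mul h5 (h2 c hc c' hc' h) (abs_nonneg _) (by positivity)
    rw [e3]
    refine (sum_le_sum fun c hc => sum_le_sum fun c' hc' => e4 c hc c' hc').trans ?_
    have e5 : ∀ c ∈ B, ∑ c' ∈ B, ((if c = c' then a c ^ 2 else 0) +
        (a c ^ 2 + a c' ^ 2) / 2 * δ) = a c ^ 2 + (B.card * a c ^ 2 + S) / 2 * δ := by
      intro c hc
      rw [sum_add_distrib, sum_ite_eq, if_pos hc, ← sum_mul, ← sum_div, sum_add_distrib, sum_const,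
        nsmul_eq_mul, hS]
    rw [sum_congr rfl e5, sum_add_distrib, ← sum_mul, ← sum_div, sum_add_distrib, ← mul_sum,
      sum_const, nsmul_eq_mul, ← hS]
    refine le_of_eq ?_
    ring
  have e6 := Finset.sum_mul_sq_le_sq_mul_sq univ (fun v => ∑ c ∈ B, a c * e c v) w
  rw [← e1] at e6
  have e7 : S ^ 2 ≤ ((1 + B.card * δ) * S) * ∑ v, w v ^ 2 :=
    e6.trans (mul_le_mul_of_nonneg_right e2 hw0)
  rcases hS0.eq_or_lt with h | h
  · rw [← h]
    positivity
  · have e8 : S * S ≤ S * ((1 + B.card * δ) * ∑ v, w v ^ 2) := by nlinarith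
    exact le_of_mul_le_mul_left e8 h

theorem norm_sum_sq {V : Type} [Fintype V] (e : V → ℝ) (ψ : V → ℂ) :
    ‖∑ v, (e v : ℂ) * ψ v‖ ^ 2 = (∑ v, e v * (ψ v).re) ^ 2 + (∑ v, e v * (ψ v).im) ^ 2 := by
  rw [← Complex.normSq_eq_norm_sq, Complex.normSq_apply, Complex.re_sum, Complex.im_sum]
  have h1 : ∀ v, ((e v : ℂ) * ψ v).re = e v * (ψ v).re := fun v => Complex.re_ofReal_mul _ _
  have h2 : ∀ v, ((e v : ℂ) * ψ v).im = e v * (ψ v).im := fun v => Complex.im_ofReal_mul _ _
  rw [sum_congr rfl fun v _ => h1 v, sum_congr rfl fun v _ => h2 v]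
  ring

theorem bellman' {C V : Type} [Fintype V] (B : Finset C) (e : C → V → ℝ) {δ : ℝ} (hδ : 0 ≤ δ)
    (h1 : ∀ c ∈ B, ∑ v, e c v ^ 2 ≤ 1)
    (h2 : ∀ c ∈ B, ∀ c' ∈ B, c ≠ c' → |∑ v, e c v * e c' v| ≤ δ) (ψ : V → ℂ) :
    ∑ c ∈ B, ‖∑ v, (e c v : ℂ) * ψ v‖ ^ 2 ≤ (1 + B.card * δ) * ∑ v, ‖ψ v‖ ^ 2 := by
  have h3 := bellman B e hδ h1 h2 fun v => (ψ v).re
  have h4 := bellman B e hδ h1 h2 fun v => (ψ v).im
  rw [sum_congr rfl fun c _ => norm_sum_sq (e c) ψ, sum_add_distrib]
  have h5 : ∑ v, ‖ψ v‖ ^ 2 = ∑ v, (ψ v).re ^ 2 + ∑ v, (ψ v).im ^ 2 := by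
    rw [← sum_add_distrib]
    refine sum_congr rfl fun v _ => ?_
    rw [← Complex.normSq_eq_norm_sq, Complex.normSq_apply]
    ring
  rw [h5]
  linarith

/-- **Only few members of the family are noticed.** -/
theorem few_bad {C V Z : Type} [Fintype C] [Fintype V] [Fintype Z] (e : C → V → ℝ) {δ ε : ℝ}
    (hδ : 0 ≤ δ) (h1 : ∀ c, ∑ v, e c v ^ 2 ≤ 1)
    (h2 : ∀ c c', c ≠ c' → |∑ v, e c v * e c' v| ≤ δ) (hε : 2 * δ ≤ ε) (ψ : Z → V → ℂ)
    (B : Finset C) (hB : ∀ c ∈ B, ε * ∑ z, ∑ v, ‖ψ z v‖ ^ 2 < ∑ z, ‖∑ v, (e c v : ℂ) * ψ z v‖ ^ 2) :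
    B.card * ε ≤ 2 := by
  rcases B.eq_empty_or_nonempty with h0 | h0
  · rw [h0]
    simp
  have h3 : B.card * (ε * ∑ z, ∑ v, ‖ψ z v‖ ^ 2) <
      (1 + B.card * δ) * ∑ z, ∑ v, ‖ψ z v‖ ^ 2 := by
    calc B.card * (ε * ∑ z, ∑ v, ‖ψ z v‖ ^ 2) = ∑ c ∈ B, ε * ∑ z, ∑ v, ‖ψ z v‖ ^ 2 := by
          rw [sum_const, nsmul_eq_mul]
      _ < ∑ c ∈ B, ∑ z, ‖∑ v, (e c v : ℂ) * ψ z v‖ ^ 2 := sum_lt_sum_of_nonempty h0 hB
      _ = ∑ z, ∑ c ∈ B, ‖∑ v, (e c v : ℂ) * ψ z v‖ ^ 2 := sum_comm
      _ ≤ ∑ z, (1 + B.card * δ) * ∑ v, ‖ψ z v‖ ^ 2 := sum_le_sum fun z _ =>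
          bellman' B e hδ (fun c _ => h1 c) (fun c _ c' _ h => h2 c c' h) (ψ z)
      _ = (1 + B.card * δ) * ∑ z, ∑ v, ‖ψ z v‖ ^ 2 := by rw [mul_sum]
  have h4 : 0 ≤ ∑ z, ∑ v, ‖ψ z v‖ ^ 2 := sum_nonneg fun z _ => sum_nonneg fun v _ => sq_nonneg _
  have h5 : (B.card : ℝ) * ε < 1 + B.card * δ := by
    by_contra hcon
    push Not at hcon
    have h6 := mul_le_mul_of_nonneg_right hcon h4
    linarith
  have h6 : (B.card : ℝ) * (2 * δ) ≤ B.card * ε := mul_le_mul_of_nonneg_left hε (by positivity)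
  linarith

/-- **The Reed-Solomon code.** -/
theorem exists_code (k D : ℕ) (hk : k ≠ 0) : ∃ f : (Fin D → Basis k) → Basis k → Basis k,
    ∀ c c', c ≠ c' → (univ.filter fun j => f c j = f c' j).card ≤ D := by
  classical
  have : Fintype (GaloisField 2 k) := Fintype.ofFinite _
  have hcard : Fintype.card (GaloisField 2 k) = Fintype.card (Basis k) := by
    rw [← Nat.card_eq_fintype_card, GaloisField.card 2 k hk]
    simp
  let e : GaloisField 2 k ≃ Basis k := Fintype.equivOfCardEq hcard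
  refine ⟨fun c j => e (∑ i : Fin D, e.symm (c i) * e.symm j ^ i.1), fun c c' hne => ?_⟩
  set P : Polynomial (GaloisField 2 k) := ∑ i : Fin D,
    Polynomial.C (e.symm (c i) - e.symm (c' i)) * Polynomial.X ^ i.1 with hP
  obtain ⟨i₀, hi₀⟩ : ∃ i, c i ≠ c' i := by
    by_contra hcon
    push Not at hcon
    exact hne (funext hcon)
  have hP0 : P ≠ 0 := by
    intro h
    have h1 : P.coeff i₀.1 = e.symm (c i₀) - e.symm (c' i₀) := by
      rw [hP, Polynomial.finsetSum_coeff, Finset.sum_eq_single i₀]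
      · rw [Polynomial.coeff_C_mul_X_pow, if_pos rfl]
      · intro i _ hi
        rw [Polynomial.coeff_C_mul_X_pow, if_neg]
        intro h
        exact hi (Fin.ext h.symm)
      · intro h
        exact absurd (mem_univ _) h
    rw [h, Polynomial.coeff_zero] at h1
    exact hi₀ (e.symm.injective (sub_eq_zero.1 h1.symm))
  have hdeg : P.natDegree ≤ D := by
    rw [hP]
    refine Polynomial.natDegree_sum_le_of_forall_le _ _ fun i _ => ?_
    exact (Polynomial.natDegree_C_mul_X_pow_le _ _).trans i.2.le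
  have hsub : (univ.filter fun j => e (∑ i : Fin D, e.symm (c i) * e.symm j ^ i.1) =
      e (∑ i : Fin D, e.symm (c' i) * e.symm j ^ i.1)) ⊆ P.roots.toFinset.image e := by
    intro j hj
    rw [mem_filter] at hj
    have h1 := e.injective hj.2
    rw [mem_image]
    refine ⟨e.symm j, ?_, e.apply_symm_apply j⟩
    rw [Multiset.mem_toFinset, Polynomial.mem_roots hP0, Polynomial.IsRoot.def, hP,
      Polynomial.eval_finsetSum]
    have h2 : ∀ i : Fin D, Polynomial.eval (e.symm j)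
        (Polynomial.C (e.symm (c i) - e.symm (c' i)) * Polynomial.X ^ i.1) =
        e.symm (c i) * e.symm j ^ i.1 - e.symm (c' i) * e.symm j ^ i.1 := fun i => by
      rw [Polynomial.eval_mul, Polynomial.eval_C, Polynomial.eval_pow, Polynomial.eval_X, sub_mul]
    rw [sum_congr rfl fun i _ => h2 i, sum_sub_distrib, h1, sub_self]
  refine (card_le_card hsub).trans (card_image_le.trans ?_)
  exact (Multiset.toFinset_card_le _).trans ((Polynomial.card_roots' P).trans hdeg)

variable {m k D : ℕ}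

/-- the strings with first half `x` which code a pair -/
def iot (m k : ℕ) (x : List Bool) (j s : Basis k) : Basis m := fun i =>
  if i.1 < m / 2 then x.getD i.1 false
  else if h : i.1 - m / 2 < k then j ⟨i.1 - m / 2, h⟩
  else if h : i.1 - m / 2 - k < k then s ⟨i.1 - m / 2 - k, h⟩
  else false

theorem xs_iot {x : List Bool} (hx : x.length = m / 2) (j s : Basis k) :
    xs (iot m k x j s) = x := by
  apply List.ext_getElem
  · unfold xs
    rw [List.length_ofFn, hx]
  · intro i h1 h2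
    unfold xs
    rw [List.getElem_ofFn]
    unfold iot
    simp only
    rw [if_pos (by omega), List.getD_eq_getElem _ _ h2]

theorem iot_inj (hk : m / 2 + 2 * k ≤ m) {x : List Bool} {j s j' s' : Basis k}
    (h : iot m k x j s = iot m k x j' s') : j = j' ∧ s = s' := by
  constructor
  · funext i
    have h1 := congrFun h ⟨m / 2 + i.1, by omega⟩
    unfold iot at h1
    simp only at h1
    rw [if_neg (by omega), if_neg (by omega), dif_pos (by omega), dif_pos (by omega)] at h1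
    simpa using h1
  · funext i
    have h1 := congrFun h ⟨m / 2 + k + i.1, by omega⟩
    unfold iot at h1
    simp only at h1
    rw [if_neg (by omega), if_neg (by omega), dif_neg (by omega), dif_pos (by omega),
      dif_neg (by omega), dif_pos (by omega)] at h1
    have e : m / 2 + k + i.1 - m / 2 - k = i.1 := by omega
    simpa [e] using h1

variable (f : (Fin D → Basis k) → Basis k → Basis k)

/-- the graph of a function -/
def gr (m : ℕ) (c : Fin D → Basis k) (x : List Bool) : Finset (Basis m) :=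
  univ.image fun j => iot m k x j (f c j)

theorem xs_gr {c : Fin D → Basis k} {x : List Bool} (hx : x.length = m / 2) {u : Basis m}
    (hu : u ∈ gr f m c x) : xs u = x := by
  unfold gr at hu
  rw [mem_image] at hu
  obtain ⟨j, _, rfl⟩ := hu
  exact xs_iot hx _ _

theorem card_gr (hk : m / 2 + 2 * k ≤ m) (c : Fin D → Basis k) (x : List Bool) :
    (gr f m c x).card = 2 ^ k := by
  unfold gr
  rw [card_image_of_injective _ fun j j' h => (iot_inj hk h).1]
  simp

theorem card_inter (hk : m / 2 + 2 * k ≤ m) {c c' : Fin D → Basis k} (x : List Bool)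
    (hc : (univ.filter fun j => f c j = f c' j).card ≤ D) :
    (gr f m c x ∩ gr f m c' x).card ≤ D := by
  refine le_trans (card_le_card (t := (univ.filter fun j => f c j = f c' j).image
    fun j => iot m k x j (f c j)) ?_) (card_image_le.trans hc)
  intro u hu
  rw [mem_inter] at hu
  unfold gr at hu
  rw [mem_image, mem_image] at hu
  obtain ⟨⟨j, _, rfl⟩, ⟨j', _, h⟩⟩ := hu
  obtain ⟨h1, h2⟩ := iot_inj hk h
  subst h1
  rw [mem_image]
  exact ⟨j', mem_filter.2 ⟨mem_univ _, h2.symm⟩, rfl⟩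

/-- the normalized state of the graph -/
noncomputable def ee (m : ℕ) (x : List Bool) (c : Fin D → Basis k) (u : Basis m) : ℝ :=
  if u ∈ gr f m c x then 1 / Real.sqrt (2 ^ k) else 0

theorem ee_sq (hk : m / 2 + 2 * k ≤ m) (x : List Bool) (c : Fin D → Basis k) :
    ∑ u, ee f m x c u ^ 2 ≤ 1 := by
  have h1 : ∀ u, ee f m x c u ^ 2 = if u ∈ gr f m c x then 1 / 2 ^ k else 0 := fun u => by
    unfold ee
    split_ifs
    · rw [div_pow, one_pow, Real.sq_sqrt (by positivity)]
    · norm_num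
  rw [sum_congr rfl fun u _ => h1 u, ← sum_filter, filter_mem_eq_inter, univ_inter, sum_const,
    card_gr f hk, nsmul_eq_mul]
  push_cast
  refine le_of_eq ?_
  field_simp

theorem ee_mul (hk : m / 2 + 2 * k ≤ m) (x : List Bool) {c c' : Fin D → Basis k}
    (hc : (univ.filter fun j => f c j = f c' j).card ≤ D) :
    |∑ u, ee f m x c u * ee f m x c' u| ≤ D / 2 ^ k := by
  have h1 : ∀ u, ee f m x c u * ee f m x c' u =
      if u ∈ gr f m c x ∩ gr f m c' x then 1 / 2 ^ k else 0 := fun u => by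
    unfold ee
    by_cases h1 : u ∈ gr f m c x
    · by_cases h2 : u ∈ gr f m c' x
      · rw [if_pos h1, if_pos h2, if_pos (mem_inter.2 ⟨h1, h2⟩), div_mul_div_comm, one_mul,
          Real.mul_self_sqrt (by positivity)]
      · rw [if_neg h2, if_neg (fun h => h2 (mem_inter.1 h).2), mul_zero]
    · rw [if_neg h1, if_neg (fun h => h1 (mem_inter.1 h).1), zero_mul]
  rw [sum_congr rfl fun u _ => h1 u, ← sum_filter, filter_mem_eq_inter, univ_inter, sum_const,
    nsmul_eq_mul, mul_one_div, abs_of_nonneg (by positivity)]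
  gcongr
  exact card_inter f hk x hc

/-- the vector with the graph of `c x` in the block of `x` -/
def rs (m : ℕ) (c : List Bool → Fin D → Basis k) (u : Basis m) : ℝ :=
  if u ∈ gr f m (c (xs u)) (xs u) then 1 else 0

theorem rs_bin (c : List Bool → Fin D → Basis k) (u : Basis m) :
    rs f m c u = 0 ∨ rs f m c u = 1 := by
  unfold rs
  split_ifs
  · exact Or.inr rfl
  · exact Or.inl rfl

theorem length_xs (u : Basis m) : (xs u).length = m / 2 := by
  unfold xs
  rw [List.length_ofFn]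

theorem nn_rs (hk : m / 2 + 2 * k ≤ m) (c : List Bool → Fin D → Basis k) {x : List Bool}
    (hx : x.length = m / 2) : nn (rs f m c) x = 2 ^ k := by
  have h1 : ∀ u : Basis m, (if xs u = x then rs f m c u ^ 2 else 0) =
      if u ∈ gr f m (c x) x then 1 else 0 := by
    intro u
    by_cases h : xs u = x
    · rw [if_pos h]
      unfold rs
      rw [h]
      split_ifs <;> norm_num
    · rw [if_neg h, if_neg fun h' => h (xs_gr f hx h')]
  unfold nn
  rw [sum_congr rfl fun u _ => h1 u, ← sum_filter, filter_mem_eq_inter, univ_inter, sum_const,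
    card_gr f hk, nsmul_eq_mul, mul_one]
  push_cast
  rfl

theorem am_rs (hk : m / 2 + 2 * k ≤ m) (c : List Bool → Fin D → Basis k) (u : Basis m) :
    am (rs f m c) u = ee f m (xs u) (c (xs u)) u := by
  unfold am
  rw [nn_rs f hk c (length_xs u)]
  unfold rs ee
  split_ifs
  · rfl
  · rw [zero_div]

/-- **Subset states which are not noticed in the blocks of `X`.** -/
theorem exists_rs {ι : Type} (S : Finset ι) (M : ι → ℕ) (l : ι → List ℕ)
    (ψ : (i : ι) → Basis (M i) → ℂ) (hl : ∀ i ∈ S, (l i).length = m)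
    (hnd : ∀ i ∈ S, (l i).Nodup ∧ ∀ q ∈ l i, q < M i)
    (hk0 : k ≠ 0) (hk : m / 2 + 2 * k ≤ m) {ε : ℝ} (hε : 0 < ε)
    (hD : 2 * ((D : ℝ) / 2 ^ k) ≤ ε)
    (hcount : S.card * (2 / ε) < 2 ^ (k * D)) (X : Finset (List Bool))
    (hX : ∀ x ∈ X, x.length = m / 2) :
    ∃ a : (r : ℕ) → Basis r → ℝ, (∀ u, a m u = 0 ∨ a m u = 1) ∧
      (∀ x, x.length = m / 2 → nn (a m) x ≠ 0) ∧
      ∀ i ∈ S, qq (a (l i).length) X (ψ i) ≤ ε * ∑ z, ‖ψ i z‖ ^ 2 := by
  classical
  obtain ⟨f, hf⟩ := exists_code k D hk0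
  have hδ : (0 : ℝ) ≤ D / 2 ^ k := by positivity
  have key : ∀ x : List Bool, ∃ c : Fin D → Basis k, ∀ i ∈ S,
      ∑ z, ‖∑ w, ((ee f (l i).length x c w : ℝ) : ℂ) *
        (if xs w = x then ψ i (wr z (l i) w) else 0)‖ ^ 2 ≤
      ε * ∑ z, ∑ w : Basis (l i).length, ‖if xs w = x then ψ i (wr z (l i) w) else 0‖ ^ 2 := by
    intro x
    let bad : ι → Finset (Fin D → Basis k) := fun i => univ.filter fun c =>
      ε * ∑ z, ∑ w : Basis (l i).length, ‖if xs w = x then ψ i (wr z (l i) w) else 0‖ ^ 2 <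
      ∑ z, ‖∑ w, ((ee f (l i).length x c w : ℝ) : ℂ) *
        (if xs w = x then ψ i (wr z (l i) w) else 0)‖ ^ 2
    have hbad : ∀ i ∈ S, ((bad i).card : ℝ) ≤ 2 / ε := by
      intro i hi
      rw [le_div_iff₀ hε]
      have hk' : (l i).length / 2 + 2 * k ≤ (l i).length := by rw [hl i hi]; exact hk
      exact few_bad (ee f (l i).length x) hδ (fun c => ee_sq f hk' x c)
        (fun c c' h => ee_mul f hk' x (hf c c' h)) hD
        (fun z w => if xs w = x then ψ i (wr z (l i) w) else 0) (bad i)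
        fun c hc => (mem_filter.1 hc).2
    have hlt : (S.biUnion bad).card < Fintype.card (Fin D → Basis k) := by
      have h1 : ((S.biUnion bad).card : ℝ) ≤ S.card * (2 / ε) := by
        have h2 : ((S.biUnion bad).card : ℝ) ≤ ∑ i ∈ S, ((bad i).card : ℝ) := by
          exact_mod_cast card_biUnion_le
        refine h2.trans ((sum_le_sum hbad).trans ?_)
        rw [sum_const, nsmul_eq_mul]
      have h3 : (Fintype.card (Fin D → Basis k) : ℝ) = 2 ^ (k * D) := by
        simp [pow_mul]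
      have h4 : ((S.biUnion bad).card : ℝ) < Fintype.card (Fin D → Basis k) := by
        rw [h3]
        exact lt_of_le_of_lt h1 hcount
      exact_mod_cast h4
    have hex : ∃ c, c ∉ S.biUnion bad := by
      by_contra hcon
      push Not at hcon
      rw [eq_univ_of_forall hcon, card_univ] at hlt
      exact lt_irrefl _ hlt
    obtain ⟨c, hc⟩ := hex
    refine ⟨c, fun i hi => ?_⟩
    by_contra hcon
    exact hc (mem_biUnion.2 ⟨i, hi, mem_filter.2 ⟨mem_univ _, not_le.1 hcon⟩⟩)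
  choose c hc using key
  refine ⟨fun r => rs f r c, rs_bin f c, fun x hx => ?_, fun i hi => ?_⟩
  · rw [nn_rs f hk c hx]
    positivity
  have hk' : (l i).length / 2 + 2 * k ≤ (l i).length := by rw [hl i hi]; exact hk
  unfold qq
  rw [div_le_iff₀ (by positivity), sum_comm]
  have h1 : ∀ x ∈ X, ∑ z, ‖cmp (rs f (l i).length c) (ψ i) z x‖ ^ 2 ≤
      ε * ∑ z, ∑ w : Basis (l i).length, if xs w = x then ‖ψ i (wr z (l i) w)‖ ^ 2 else 0 := by
    intro x hx
    refine le_trans (le_of_eq ?_) ((hc x i hi).trans (le_of_eq ?_))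
    · refine sum_congr rfl fun z _ => ?_
      congr 2
      unfold cmp
      refine sum_congr rfl fun w _ => ?_
      rw [am_rs f hk']
      by_cases h : xs w = x
      · rw [if_pos h, if_pos h, h]
      · rw [if_neg h, if_neg h, mul_zero]
    · congr 1
      refine sum_congr rfl fun z _ => sum_congr rfl fun w _ => ?_
      split_ifs
      · rfl
      · simp
  refine (sum_le_sum h1).trans ?_
  rw [← mul_sum, sum_comm, mul_assoc]
  refine mul_le_mul_of_nonneg_left ?_ hε.le
  have h2 := Pool.Agent.H10x.QW.sum_wr (hnd i hi).1 (hnd i hi).2 (fun z => ‖ψ i z‖ ^ 2)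
  rw [mul_comm, ← h2]
  refine sum_le_sum fun z _ => ?_
  rw [sum_comm]
  refine sum_le_sum fun w _ => ?_
  rw [← sum_filter]
  have h3 : (X.filter fun x => xs w = x) ⊆ {xs w} := by
    intro x hx
    rw [mem_filter] at hx
    rw [mem_singleton]
    exact hx.2.symm
  refine (sum_le_sum_of_subset_of_nonneg h3 fun _ _ _ => by positivity).trans ?_
  rw [sum_singleton]

end Pool.Agent.H10x.OW
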