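import Pool.Agent.H10x.OW.Pol
import Pool.Agent.H10x.OW.RS

/-!
# Hidden vectors which are not noticed on a finite list of states
-/

set_option autoImplicit false

namespace Pool.Agent.H10x.OW

open Pool.Agent.NPC Pool.Agent.H620R2.Gauge Finset
open Pool.Agent.H9x.Q (Basis bit ket ket_norm)
open Pool.Agent.R562.QH (nrm nrm_sq nrm_nonneg nrm_add_le nrm_congr)
open Pool.Agent.H10x.QW (UOracle Gate Verifier IsState rd wr run xs hybrid prob_diff nrm_run
  nrm_start act_one lst)
open scoped Topology

variable {m M : ℕ}

/-- the vector read as a vector for `k` qubits -/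
def vl (a : Basis m → ℝ) (k : ℕ) : Basis k → ℝ := fun u => lift a (List.ofFn u)

theorem vl_self (a : Basis m → ℝ) : vl a m = a := funext fun u => lift_ofFn a u

theorem am_mk_eq (b : Finset (List Bool)) (a : Basis m → ℝ) (u : Basis m) :
    am (mk b a) u = if xs u ∈ b then am a u else 0 := by
  split_ifs with h
  · rw [am_mk h]
    rfl
  · exact am_mk' h

theorem cmp_mk {l : List ℕ} (b : Finset (List Bool)) (a : Basis l.length → ℝ) (ψ : Basis M → ℂ)
    (z : Basis M) (x : List Bool) :
    cmp (mk b a) ψ z x = if x ∈ b then cmp a ψ z x else 0 := by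
  unfold cmp
  split_ifs with h
  · refine sum_congr rfl fun w _ => ?_
    split_ifs with h1
    · rw [am_mk_eq, if_pos (by rw [h1]; exact h)]
    · rfl
  · refine sum_eq_zero fun w _ => ?_
    split_ifs with h1
    · rw [am_mk_eq, if_neg (by rw [h1]; exact h)]
      simp
    · rfl

theorem qq_mk_le {l : List ℕ} (b X : Finset (List Bool)) (a : Basis l.length → ℝ)
    (ψ : Basis M → ℂ) : qq (mk b a) X ψ ≤ qq a X ψ := by
  unfold qq
  refine div_le_div_of_nonneg_right ?_ (by positivity)
  refine sum_le_sum fun z _ => sum_le_sum fun x _ => ?_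
  rw [cmp_mk]
  split_ifs
  · exact le_rfl
  · rw [norm_zero, zero_pow two_ne_zero]
    positivity

theorem continuous_nn (x : List Bool) : Continuous fun a : Basis m → ℝ => nn a x := by
  unfold nn
  refine continuous_finsetSum _ fun u _ => ?_
  split_ifs
  · exact (continuous_apply u).pow 2
  · exact continuous_const

theorem qq_cont {l : List ℕ} {a₀ : Basis l.length → ℝ} {X : Finset (List Bool)}
    (h : ∀ x ∈ X, nn a₀ x ≠ 0) (ψ : Basis M → ℂ) {ε : ℝ} (hε : qq a₀ X ψ < ε) :
    ∀ᶠ a in 𝓝 a₀, qq a X ψ < ε := by
  have h1 : ∀ x ∈ X, ∀ z, ContinuousAt (fun a => cmp a ψ z x) a₀ := by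
    intro x hx z
    unfold cmp
    refine tendsto_finsetSum _ fun w _ => ?_
    by_cases hw : xs w = x
    · simp only [if_pos hw]
      have h2 : ContinuousAt (fun a : Basis l.length → ℝ => am a w) a₀ := by
        unfold am
        refine (continuous_apply w).continuousAt.div
          (Real.continuous_sqrt.comp (continuous_nn (xs w))).continuousAt ?_
        show Real.sqrt (nn a₀ (xs w)) ≠ 0
        rw [hw, Real.sqrt_ne_zero (nn_nonneg _ _)]
        exact h x hx
      exact (Complex.continuous_ofReal.continuousAt.comp h2).mul continuousAt_const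
    · simp only [if_neg hw]
      exact tendsto_const_nhds
  have h2 : ContinuousAt (fun a => qq a X ψ) a₀ := by
    unfold qq
    refine ContinuousAt.div_const ?_ _
    refine tendsto_finsetSum _ fun z _ => tendsto_finsetSum _ fun x hx => ?_
    exact ((h1 x hx z).norm).pow 2
  exact h2.eventually_lt continuousAt_const hε

theorem qq_cont' {l : List ℕ} (hl : l.length = m) {a₀ : Basis m → ℝ} {X : Finset (List Bool)}
    (h : ∀ x ∈ X, nn a₀ x ≠ 0) (ψ : Basis M → ℂ) {ε : ℝ} (hε : qq (vl a₀ l.length) X ψ < ε) :
    ∀ᶠ a in 𝓝 a₀, qq (vl a l.length) X ψ < ε := by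
  subst hl
  simp only [vl_self] at hε ⊢
  exact qq_cont h ψ hε

/-- the vector `a` is not noticed by the verifier on the input `y` and the witness `φ` -/
def Fine (A : Oracle) (κ₀ : Dat) (F : Verifier) (ε : ℝ) (X : Finset (List Bool)) (y : List Bool)
    (φ : Basis (F.wit.eval y.length) → ℂ) (a : Basis m → ℝ) : Prop :=
  ∀ t < (F.circ y.length).length, (lst (F.circ y.length) t).length = m →
    (lst (F.circ y.length) t).Nodup → (∀ q ∈ lst (F.circ y.length) t, q < F.qubits y.length) →
    qq (vl a (lst (F.circ y.length) t).length) X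
      (run A (ro κ₀) ((F.circ y.length).take t) (F.start y φ)) < ε

variable {A : Oracle} {κ₀ : Dat} {F : Verifier} {ε : ℝ} {X : Finset (List Bool)} {y : List Bool}
  {φ : Basis (F.wit.eval y.length) → ℂ}

theorem Fine.eventually {a₀ : Basis m → ℝ} (h : Fine A κ₀ F ε X y φ a₀)
    (hX : ∀ x ∈ X, nn a₀ x ≠ 0) : ∀ᶠ a in 𝓝 a₀, Fine A κ₀ F ε X y φ a := by
  unfold Fine
  refine (Filter.eventually_all_finite (Set.finite_lt_nat (F.circ y.length).length)).2 ?_
  intro t ht
  rw [Set.mem_ofPred_eq] at ht
  by_cases h1 : (lst (F.circ y.length) t).length = m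
  · by_cases h2 : (lst (F.circ y.length) t).Nodup
    · by_cases h3 : ∀ q ∈ lst (F.circ y.length) t, q < F.qubits y.length
      · filter_upwards [qq_cont' h1 hX _ (h t ht h1 h2 h3)] with a ha _ _ _
        exact ha
      · exact Filter.Eventually.of_forall fun a _ _ h => absurd h h3
    · exact Filter.Eventually.of_forall fun a _ h => absurd h h2
  · exact Filter.Eventually.of_forall fun a h => absurd h h1

/-- **The acceptance probabilities do not change much.** -/
theorem near {a : Basis m → ℝ} (hfine : Fine A κ₀ F ε X y φ a) {b : Finset (List Bool)}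
    (hb : b ⊆ X) (h0 : (ro κ₀).mat m = 1) (hφ : IsState φ) {T : ℕ}
    (hT : (F.circ y.length).length ≤ T) (hε0 : 0 ≤ ε) (hε : 4 * T * Real.sqrt ε ≤ 1 / 8) :
    |F.acc A (ro (up κ₀ m (mk b a))) y φ - F.acc A (ro κ₀) y φ| ≤ 1 / 8 := by
  have hn : nrm (F.start y φ) = 1 := nrm_start F y hφ
  have h1 := prob_diff (fun z => bit z y.length)
    (u := run A (ro (up κ₀ m (mk b a))) (F.circ y.length) (F.start y φ))
    (v := run A (ro κ₀) (F.circ y.length) (F.start y φ))
    (by rw [nrm_run, hn]) (by rw [nrm_run, hn])
  have h2 := hybrid A (ro κ₀) (ro (up κ₀ m (mk b a))) (ε := 2 * Real.sqrt ε) (F.circ y.length)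
    (F.start y φ) (by
      intro C₁ g C₂ hC
      have hz : nrm (0 : Basis (F.qubits y.length) → ℂ) = 0 := by
        have := nrm_sq (0 : Basis (F.qubits y.length) → ℂ)
        simp at this
        exact this
      have hsame : ∀ φ : Basis (F.qubits y.length) → ℂ,
          g.act A (ro (up κ₀ m (mk b a))) φ = g.act A (ro κ₀) φ →
          nrm (g.act A (ro (up κ₀ m (mk b a))) φ - g.act A (ro κ₀) φ) ≤ 2 * Real.sqrt ε := by
        intro φ h
        rw [h, sub_self, hz]
        positivity
      cases g with
      | std g => exact hsame _ rfl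
      | uni c l =>
        by_cases hl : l.length = m
        · by_cases hgood : l.Nodup ∧ ∀ q ∈ l, q < F.qubits y.length
          · have hmat : (ro κ₀).mat l.length = 1 := by
              subst hl
              exact h0
            rw [act_one hmat]
            have ht : C₁.length < (F.circ y.length).length := by
              rw [hC]
              simp
            have hget : lst (F.circ y.length) C₁.length = l := by
              unfold lst
              rw [hC]
              simp
            have htake : (F.circ y.length).take C₁.length = C₁ := by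
              rw [hC, List.take_left]
            have h3 := hfine C₁.length ht (by rw [hget]; exact hl) (by rw [hget]; exact hgood.1)
              (by rw [hget]; exact hgood.2)
            rw [hget, htake] at h3
            have h4 : nrm ((Gate.uni c l).act A (ro (up κ₀ m (mk b a)))
                (run A (ro κ₀) C₁ (F.start y φ)) - run A (ro κ₀) C₁ (F.start y φ)) ^ 2 ≤
                4 * qq (vl (mk b a) l.length) X (run A (ro κ₀) C₁ (F.start y φ)) := by
              subst hl
              refine nrm_act_rf ?_ (fun w hw => ?_) _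
              · rw [ro_mat, vec_up_self, vl_self]
              · rw [vl_self]
                unfold mk
                rw [if_neg fun h => hw (hb h)]
            have h5 : qq (vl (mk b a) l.length) X (run A (ro κ₀) C₁ (F.start y φ)) ≤ ε := by
              refine le_trans ?_ h3.le
              subst hl
              rw [vl_self, vl_self]
              exact qq_mk_le b X a _
            refine le_of_sq_le_sq ?_ (by positivity)
            rw [mul_pow, Real.sq_sqrt hε0]
            linarith
          · refine hsame _ ?_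
            funext z
            simp only [Gate.act]
            rw [if_neg fun h => hgood ⟨h.1, h.2.1⟩, if_neg fun h => hgood ⟨h.1, h.2.1⟩]
        · refine hsame _ ?_
          funext z
          simp only [Gate.act]
          rw [ro_mat, ro_mat, vec_up_ne κ₀ _ hl])
  have h3 : ((F.circ y.length).length : ℝ) * (2 * Real.sqrt ε) ≤ T * (2 * Real.sqrt ε) := by
    have : ((F.circ y.length).length : ℝ) ≤ T := by exact_mod_cast hT
    gcongr
  unfold Verifier.acc
  have h4 := h1.trans (mul_le_mul_of_nonneg_left (h2.trans h3) (by norm_num))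
  refine h4.trans ?_
  linarith

/-- **There are subset states which are not noticed.** -/
theorem exists_fine (S : Finset ((y : List Bool) × (Basis (F.wit.eval y.length) → ℂ)))
    (hS : ∀ j ∈ S, IsState j.2) {T : ℕ} (hT : ∀ j ∈ S, (F.circ j.1.length).length ≤ T)
    {k D : ℕ} (hk0 : k ≠ 0) (hk : m / 2 + 2 * k ≤ m) {ε' : ℝ} (hε : 0 < ε') (hεε : ε' < ε)
    (hD : 2 * ((D : ℝ) / 2 ^ k) ≤ ε') (hcount : (S.card * T) * (2 / ε') < 2 ^ (k * D))
    (hX : ∀ x ∈ X, x.length = m / 2) :
    ∃ a : Basis m → ℝ, (∀ u, a u = 0 ∨ a u = 1) ∧ (∀ x, x.length = m / 2 → nn a x ≠ 0) ∧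
      ∀ j ∈ S, Fine A κ₀ F ε X j.1 j.2 a := by
  classical
  let J := (y : List Bool) × (Basis (F.wit.eval y.length) → ℂ)
  let I : Finset (J × ℕ) := (S ×ˢ range T).filter fun i =>
    (lst (F.circ i.1.1.length) i.2).length = m ∧ (lst (F.circ i.1.1.length) i.2).Nodup ∧
      ∀ q ∈ lst (F.circ i.1.1.length) i.2, q < F.qubits i.1.1.length
  have hI : (I.card : ℝ) ≤ S.card * T := by
    have h1 : I.card ≤ S.card * T := by
      refine (card_filter_le _ _).trans ?_
      rw [card_product, card_range]
    exact_mod_cast h1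
  obtain ⟨a, ha1, ha2, ha3⟩ := exists_rs (D := D) I (fun i => F.qubits i.1.1.length)
    (fun i => lst (F.circ i.1.1.length) i.2)
    (fun i => run A (ro κ₀) ((F.circ i.1.1.length).take i.2) (F.start i.1.1 i.1.2))
    (fun i hi => (mem_filter.1 hi).2.1) (fun i hi => (mem_filter.1 hi).2.2) hk0 hk hε hD
    (lt_of_le_of_lt (mul_le_mul_of_nonneg_right hI (by positivity)) hcount) X hX
  refine ⟨a m, ha1, ha2, fun j hj t ht h1 h2 h3 => ?_⟩
  have hi : (j, t) ∈ I := by
    refine mem_filter.2 ⟨mem_product.2 ⟨hj, mem_range.2 (lt_of_lt_of_le ht (hT j hj))⟩, h1, h2, h3⟩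
  have h4 := ha3 _ hi
  simp only at h4
  have h5 : ∀ r, r = m → vl (a m) r = a r := by
    rintro r rfl
    exact vl_self _
  rw [h5 _ h1]
  refine lt_of_le_of_lt h4 ?_
  rw [← nrm_sq, nrm_run, nrm_start F j.1 (hS j hj)]
  linarith

end Pool.Agent.H10x.OW
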