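import Pool.Agent.H10x.OW.Final

/-!
# Above every classical oracle, `QCMA`, `oSQMA` and `QMA₁` can be made different by a unitary oracle

In `oSQMA` the honest witness is a subset state which maximises the probability of acceptance over
all states; `QCMA ⊆ oSQMA ⊆ QMA₁`. For every classical oracle `A` and every countable family `W` of
states there is a unitary oracle `U` such that, relative to `A` and `U`,

* some language has exact unique subset-state witnesses (so it is in `oSQMA` with completeness one
  and soundness error zero), but it is not in `QCPH` (a constant number of alternating classical
  quantifiers in front of a quantum verifier, so in particular it is not in `QCMA`), even with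
  polynomial advice;
* some language has exact unique quantum witnesses (so it is in `QMA₁`), but it is not decided by any
  verifier whose honest witnesses are subset states, or vectors of algebraic numbers, or states in
  `W`, and maximise the probability of acceptance, even with polynomial advice; in particular it is
  not in `oSQMA`.

The unitary oracle consists of reflections at hidden states. For the first language these are subset
states of graphs of polynomials over a finite field, which are pairwise nearly orthogonal; for the
second one they are generic small perturbations of such states: an optimal witness is an eigenvector
of the acceptance operator, and the coefficients of this operator are rational functions of the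
hidden vectors, so that a fixed state which is an eigenvector for generic hidden vectors is one for
all of them. Such states have a finite set of representatives with the same probabilities, and these
do not notice the reflections.
-/

set_option autoImplicit false

namespace Pool.Agent.Results.MP_36f78e_lc.OptimalWitnesses

open Pool.Agent.H620R2.Gauge Pool.Agent.H10x.QW Pool.Agent.H10x.OW
open Pool.Agent.H9x.Q (Basis)

theorem result (A : Oracle) (W : (p : ℕ) → Set (Basis p → ℂ)) (hW : ∀ p, (W p).Countable) :
    ∃ U : UOracle,
      (∃ L, IsExact Sub A U L ∧ IsOpt Sub A U L Lᶜ ∧
        ¬ IsQCPH A U L Lᶜ ∧ ¬ IsQCPHpoly A U L Lᶜ) ∧
      ∃ L, IsExact (fun _ => Set.univ) A U L ∧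
        (¬ IsOpt Sub A U L Lᶜ ∧ ¬ IsOptPoly Sub A U L Lᶜ) ∧
        (¬ IsOpt Alg A U L Lᶜ ∧ ¬ IsOptPoly Alg A U L Lᶜ) ∧
        ¬ IsOpt W A U L Lᶜ ∧ ¬ IsOptPoly W A U L Lᶜ :=
  final A W hW

end Pool.Agent.Results.MP_36f78e_lc.OptimalWitnesses
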