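import Pool.Agent.H10x.QW.Refl

/-!
# Reflections at hidden real vectors
-/

set_option autoImplicit false

namespace Pool.Agent.H10x.OW

open Pool.Agent.NPC Pool.Agent.H620R2.Gauge Finset
open Pool.Agent.H9x.Q (Basis bit ket)
open Pool.Agent.R562.QH (nrm nrm_sq nrm_nonneg nrm_add_le nrm_congr)
open Pool.Agent.H10x.QW (UOracle Gate rd wr run xs rd_wr wr_wr wr_rd bit_wr sum_xch sum_wr act_one)

variable {m : ℕ}

/-- the square of the norm on the block of `x` -/
noncomputable def nn (a : Basis m → ℝ) (x : List Bool) : ℝ := ∑ u, if xs u = x then a u ^ 2 else 0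

theorem nn_nonneg (a : Basis m → ℝ) (x : List Bool) : 0 ≤ nn a x :=
  sum_nonneg fun u _ => by split_ifs <;> positivity

/-- the normalized amplitudes -/
noncomputable def am (a : Basis m → ℝ) (u : Basis m) : ℝ := a u / Real.sqrt (nn a (xs u))

theorem am_eq_zero {a : Basis m → ℝ} {u : Basis m} (h : nn a (xs u) = 0) : am a u = 0 := by
  unfold am
  rw [h, Real.sqrt_zero, div_zero]

theorem sum_am {a : Basis m → ℝ} {x : List Bool} (h : nn a x ≠ 0) :
    ∑ u, (if xs u = x then am a u ^ 2 else 0) = 1 := by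
  have h1 : ∀ u : Basis m, (if xs u = x then am a u ^ 2 else 0) =
      (if xs u = x then a u ^ 2 else 0) / nn a x := by
    intro u
    split_ifs with hu
    · unfold am
      rw [hu, div_pow, Real.sq_sqrt (nn_nonneg a x)]
    · rw [zero_div]
  rw [sum_congr rfl fun u _ => h1 u, ← sum_div]
  exact div_self h

theorem sum_am_le (a : Basis m → ℝ) (x : List Bool) :
    ∑ u, (if xs u = x then am a u ^ 2 else 0) ≤ 1 := by
  by_cases h : nn a x = 0
  · rw [sum_eq_zero]
    · norm_num
    · intro u _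
      split_ifs with hu
      · rw [am_eq_zero (by rw [hu]; exact h)]
        norm_num
      · rfl
  · exact (sum_am h).le

/-- the projection on the hidden states -/
noncomputable def pj (a : Basis m → ℝ) : Matrix (Basis m) (Basis m) ℂ :=
  Matrix.of fun u u' => if xs u = xs u' then ((am a u * am a u' : ℝ) : ℂ) else 0

theorem pj_apply (a : Basis m → ℝ) (u u' : Basis m) :
    pj a u u' = if xs u = xs u' then ((am a u * am a u' : ℝ) : ℂ) else 0 := rfl

theorem pj_mul (a : Basis m → ℝ) : pj a * pj a = pj a := by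
  ext u u''
  rw [Matrix.mul_apply]
  simp only [pj_apply]
  have h3 : ∀ u' : Basis m, ((if xs u = xs u' then ((am a u * am a u' : ℝ) : ℂ) else 0) *
      if xs u' = xs u'' then ((am a u' * am a u'' : ℝ) : ℂ) else 0) =
      if xs u = xs u'' then ((am a u * am a u'' * (if xs u' = xs u then am a u' ^ 2 else 0) : ℝ) : ℂ)
        else 0 := by
    intro u'
    by_cases h4 : xs u = xs u'
    · by_cases h5 : xs u = xs u''
      · rw [if_pos h4, if_pos (h4 ▸ h5), if_pos h5, if_pos h4.symm]
        push_cast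
        ring
      · rw [if_pos h4, if_neg (fun h => h5 (h4.trans h)), if_neg h5, mul_zero]
    · rw [if_neg h4, zero_mul, if_neg (fun h : xs u' = xs u => h4 h.symm)]
      simp
  rw [sum_congr rfl fun u' _ => h3 u']
  by_cases h5 : xs u = xs u''
  · simp only [if_pos h5]
    rw [← Complex.ofReal_sum, ← mul_sum]
    by_cases h : nn a (xs u) = 0
    · rw [am_eq_zero h]
      simp
    · rw [sum_am h, mul_one]
  · simp only [if_neg h5]
    rw [sum_const_zero]

theorem pj_star (a : Basis m → ℝ) : star (pj a) = pj a := by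
  ext u u'
  rw [Matrix.star_apply, pj_apply, pj_apply]
  by_cases h : xs u = xs u'
  · rw [if_pos h, if_pos h.symm, RCLike.star_def, Complex.conj_ofReal, mul_comm (am a u')]
  · rw [if_neg h, if_neg fun h' => h h'.symm, star_zero]

/-- the reflection at the hidden states -/
noncomputable def rf (a : Basis m → ℝ) : Matrix (Basis m) (Basis m) ℂ := 1 - (pj a + pj a)

theorem rf_mul (a : Basis m → ℝ) : rf a * rf a = 1 := by
  unfold rf
  have h := pj_mul a
  set P : Matrix (Basis m) (Basis m) ℂ := pj a with hP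
  have h2 : (1 - (P + P)) * (1 - (P + P)) =
      1 - (P + P) - (P + P) + (P * P + P * P + (P * P + P * P)) := by
    noncomm_ring
  rw [h2, h]
  abel

theorem rf_unitary (a : Basis m → ℝ) : rf a ∈ Matrix.unitaryGroup (Basis m) ℂ := by
  rw [Matrix.mem_unitaryGroup_iff]
  have h : star (rf a) = rf a := by
    unfold rf
    rw [star_sub, star_add, pj_star, star_one]
  rw [h, rf_mul]

/-- the data: for every number of qubits a real function on the strings -/
abbrev Dat : Type := ℕ → List Bool → ℝ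

/-- the vector of the data -/
def vec (κ : Dat) (m : ℕ) : Basis m → ℝ := fun u => κ m (List.ofFn u)

/-- the unitary oracle with the data `κ` -/
noncomputable def ro (κ : Dat) : UOracle where
  mat m := rf (vec κ m)
  unitary _ := rf_unitary _
  invol _ := rf_mul _

theorem ro_mat (κ : Dat) (m : ℕ) : (ro κ).mat m = rf (vec κ m) := rfl

theorem am_zero (u : Basis m) : am (fun _ => 0) u = 0 := by
  unfold am
  rw [zero_div]

theorem rf_zero : rf (fun _ : Basis m => (0 : ℝ)) = 1 := by
  unfold rf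
  have : pj (fun _ : Basis m => (0 : ℝ)) = 0 := by
    ext u u'
    rw [pj_apply, am_zero]
    simp
  rw [this]
  simp

variable {M : ℕ}

/-- the component of a state -/
noncomputable def cmp {l : List ℕ} (a : Basis l.length → ℝ) (ψ : Basis M → ℂ) (z : Basis M)
    (x : List Bool) : ℂ :=
  ∑ w : Basis l.length, if xs w = x then ((am a w : ℝ) : ℂ) * ψ (wr z l w) else 0

theorem cmp_wr {l : List ℕ} (a : Basis l.length → ℝ) (ψ : Basis M → ℂ) (z : Basis M)
    (w : Basis l.length) (x : List Bool) : cmp a ψ (wr z l w) x = cmp a ψ z x := by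
  unfold cmp
  simp only [wr_wr]

theorem sum_pj {l : List ℕ} (a : Basis l.length → ℝ) (ψ : Basis M → ℂ) (z : Basis M) :
    ∑ w : Basis l.length, pj a (rd z l) w * ψ (wr z l w) =
      ((am a (rd z l) : ℝ) : ℂ) * cmp a ψ z (xs (rd z l)) := by
  unfold cmp
  rw [mul_sum]
  refine sum_congr rfl fun w _ => ?_
  rw [pj_apply]
  by_cases h : xs (rd z l) = xs w
  · rw [if_pos h, if_pos h.symm]
    push_cast
    ring
  · rw [if_neg h, if_neg (fun h' : xs w = xs (rd z l) => h h'.symm), zero_mul, mul_zero]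

theorem sum_rf {l : List ℕ} (a : Basis l.length → ℝ) (ψ : Basis M → ℂ) (z : Basis M) :
    ∑ w : Basis l.length, rf a (rd z l) w * ψ (wr z l w) =
      ψ z - 2 * (((am a (rd z l) : ℝ) : ℂ) * cmp a ψ z (xs (rd z l))) := by
  have h1 : ∀ w : Basis l.length, rf a (rd z l) w * ψ (wr z l w) =
      (1 : Matrix _ _ ℂ) (rd z l) w * ψ (wr z l w) -
      2 * (pj a (rd z l) w * ψ (wr z l w)) := by
    intro w
    unfold rf
    rw [Matrix.sub_apply, Matrix.add_apply]
    ring
  rw [sum_congr rfl fun w _ => h1 w, sum_sub_distrib, ← mul_sum, sum_pj]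
  congr 1
  rw [Finset.sum_eq_single (rd z l)]
  · rw [Matrix.one_apply_eq, one_mul, wr_rd]
  · intro w _ hw
    rw [Matrix.one_apply_ne (Ne.symm hw), zero_mul]
  · intro h
    exact absurd (mem_univ _) h

/-- the gate of a reflection -/
theorem act_rf {A : Oracle} {U : UOracle} {c : ℕ} {l : List ℕ} {a : Basis l.length → ℝ}
    (hU : U.mat l.length = rf a) (ψ : Basis M → ℂ) (z : Basis M) :
    (Gate.uni c l).act A U ψ z =
      if l.Nodup ∧ (∀ q ∈ l, q < M) ∧ c ∉ l ∧ bit z c = true then
        ψ z - 2 * (((am a (rd z l) : ℝ) : ℂ) * cmp a ψ z (xs (rd z l)))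
      else ψ z := by
  simp only [Gate.act]
  split_ifs with h
  · rw [hU, sum_rf]
  · rfl

/-- the weight of the components -/
noncomputable def qq {l : List ℕ} (a : Basis l.length → ℝ) (X : Finset (List Bool))
    (ψ : Basis M → ℂ) : ℝ :=
  (∑ z : Basis M, ∑ x ∈ X, ‖cmp a ψ z x‖ ^ 2) / 2 ^ l.length

theorem qq_nonneg {l : List ℕ} (a : Basis l.length → ℝ) (X : Finset (List Bool))
    (ψ : Basis M → ℂ) : 0 ≤ qq a X ψ := by
  unfold qq
  positivity

/-- **The effect of the gate of a reflection is bounded by the weight of the components.** -/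
theorem nrm_act_rf {A : Oracle} {U : UOracle} {c : ℕ} {l : List ℕ} {a : Basis l.length → ℝ}
    (hU : U.mat l.length = rf a) {X : Finset (List Bool)} (hX : ∀ w, xs w ∉ X → a w = 0)
    (ψ : Basis M → ℂ) : nrm ((Gate.uni c l).act A U ψ - ψ) ^ 2 ≤ 4 * qq a X ψ := by
  classical
  rw [nrm_sq]
  by_cases hgood : l.Nodup ∧ ∀ q ∈ l, q < M
  swap
  · rw [sum_eq_zero]
    · have := qq_nonneg a X ψ
      linarith
    · intro z _
      rw [Pi.sub_apply, act_rf hU, if_neg fun h => hgood ⟨h.1, h.2.1⟩]
      simp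
  obtain ⟨hnd, hlt⟩ := hgood
  have key : ∀ z : Basis M, ‖((Gate.uni c l).act A U ψ - ψ) z‖ ^ 2 ≤
      4 * (am a (rd z l) ^ 2 * ‖cmp a ψ z (xs (rd z l))‖ ^ 2) := by
    intro z
    rw [Pi.sub_apply, act_rf hU]
    split_ifs
    · have e1 : ψ z - 2 * (((am a (rd z l) : ℝ) : ℂ) * cmp a ψ z (xs (rd z l))) - ψ z =
          -2 * (((am a (rd z l) : ℝ) : ℂ) * cmp a ψ z (xs (rd z l))) := by ring
      rw [e1, norm_mul, norm_mul, mul_pow, mul_pow, Complex.norm_real, Real.norm_eq_abs, sq_abs]
      refine le_of_eq ?_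
      rw [norm_neg]
      norm_num
    · rw [sub_self, norm_zero, zero_pow (by norm_num)]
      positivity
  refine (sum_le_sum fun z _ => key z).trans ?_
  rw [← mul_sum]
  refine mul_le_mul_of_nonneg_left ?_ (by norm_num)
  unfold qq
  rw [le_div_iff₀ (by positivity)]
  have h1 := sum_wr hnd hlt
    (fun z : Basis M => am a (rd z l) ^ 2 * ‖cmp a ψ z (xs (rd z l))‖ ^ 2)
  simp only [cmp_wr, rd_wr hnd hlt] at h1
  rw [mul_comm, ← h1]
  refine sum_le_sum fun z _ => ?_
  have h2 : ∀ w : Basis l.length, am a w ^ 2 * ‖cmp a ψ z (xs w)‖ ^ 2 =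
      ∑ x ∈ X, (if xs w = x then am a w ^ 2 else 0) * ‖cmp a ψ z x‖ ^ 2 := by
    intro w
    by_cases hw : xs w ∈ X
    · rw [Finset.sum_eq_single (xs w)]
      · rw [if_pos rfl]
      · intro x _ hx
        rw [if_neg (fun h => hx h.symm), zero_mul]
      · intro h
        exact absurd hw h
    · have h3 : am a w = 0 := by
        unfold am
        rw [hX w hw, zero_div]
      rw [h3, sum_eq_zero]
      · simp
      · intro x _
        split_ifs <;> simp
  rw [sum_congr rfl fun w _ => h2 w, sum_comm]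
  refine sum_le_sum fun x _ => ?_
  rw [← sum_mul]
  have h3 := sum_am_le a x
  nlinarith [sq_nonneg ‖cmp a ψ z x‖]

end Pool.Agent.H10x.OW
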