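import Pool.Agent.H10x.OW.Lin
import Pool.Agent.H10x.OW.Ref

/-!
# The dependence on the hidden vectors is rational
-/

set_option autoImplicit false

namespace Pool.Agent.H10x.OW

open Pool.Agent.NPC Pool.Agent.H620R2.Gauge Finset
open Pool.Agent.H9x.Q (Basis bit ket)
open Pool.Agent.H10x.QW (UOracle Gate Verifier IsState rd wr run xs)

variable {m : ℕ}

/-- the polynomial functions of a real vector, with complex coefficients -/
def PF (m : ℕ) : Subalgebra ℂ ((Basis m → ℝ) → ℂ) :=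
  Algebra.adjoin ℂ (Set.range fun (u : Basis m) (ρ : Basis m → ℝ) => ((ρ u : ℝ) : ℂ))

/-- the function is polynomial -/
def IsPF (g : (Basis m → ℝ) → ℂ) : Prop := g ∈ PF m

theorem IsPF.coord (u : Basis m) : IsPF (fun ρ : Basis m → ℝ => ((ρ u : ℝ) : ℂ)) :=
  Algebra.subset_adjoin ⟨u, rfl⟩

theorem IsPF.const (c : ℂ) : IsPF (fun _ : Basis m → ℝ => c) := (PF m).algebraMap_mem c

theorem IsPF.add {f g : (Basis m → ℝ) → ℂ} (hf : IsPF f) (hg : IsPF g) :
    IsPF (fun ρ => f ρ + g ρ) := (PF m).add_mem hf hg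

theorem IsPF.sub {f g : (Basis m → ℝ) → ℂ} (hf : IsPF f) (hg : IsPF g) :
    IsPF (fun ρ => f ρ - g ρ) := (PF m).sub_mem hf hg

theorem IsPF.mul {f g : (Basis m → ℝ) → ℂ} (hf : IsPF f) (hg : IsPF g) :
    IsPF (fun ρ => f ρ * g ρ) := (PF m).mul_mem hf hg

theorem IsPF.pow {f : (Basis m → ℝ) → ℂ} (hf : IsPF f) (n : ℕ) :
    IsPF (fun ρ => f ρ ^ n) := (PF m).pow_mem hf n

theorem IsPF.sum {ι : Type} (s : Finset ι) {f : ι → (Basis m → ℝ) → ℂ} (h : ∀ i ∈ s, IsPF (f i)) :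
    IsPF (fun ρ => ∑ i ∈ s, f i ρ) := by
  have h1 := (PF m).sum_mem h
  have h2 : (fun ρ => ∑ i ∈ s, f i ρ) = ∑ i ∈ s, f i := by
    funext ρ
    rw [Finset.sum_apply]
  rw [h2]
  exact h1

theorem IsPF.prod {ι : Type} (s : Finset ι) {f : ι → (Basis m → ℝ) → ℂ} (h : ∀ i ∈ s, IsPF (f i)) :
    IsPF (fun ρ => ∏ i ∈ s, f i ρ) := by
  have h1 := (PF m).prod_mem h
  have h2 : (fun ρ => ∏ i ∈ s, f i ρ) = ∏ i ∈ s, f i := by
    funext ρ
    rw [Finset.prod_apply]
  rw [h2]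
  exact h1

theorem IsPF.star_mem {g : (Basis m → ℝ) → ℂ} (h : IsPF g) : IsPF (fun ρ => star (g ρ)) := by
  refine Algebra.adjoin_induction (p := fun g _ => IsPF (fun ρ => star (g ρ))) ?_ ?_ ?_ ?_ h
  · rintro _ ⟨u, rfl⟩
    have : (fun ρ : Basis m → ℝ => star ((ρ u : ℝ) : ℂ)) = fun ρ => ((ρ u : ℝ) : ℂ) := by
      funext ρ
      rw [RCLike.star_def, Complex.conj_ofReal]
    rw [this]
    exact IsPF.coord u
  · intro c
    exact IsPF.const (star c)
  · intro f g _ _ hf hg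
    have : (fun ρ => star ((f + g) ρ)) = fun ρ => star (f ρ) + star (g ρ) := by
      funext ρ
      rw [Pi.add_apply, star_add]
    rw [this]
    exact hf.add hg
  · intro f g _ _ hf hg
    have : (fun ρ => star ((f * g) ρ)) = fun ρ => star (f ρ) * star (g ρ) := by
      funext ρ
      rw [Pi.mul_apply, star_mul, mul_comm]
    rw [this]
    exact hf.mul hg

theorem IsPF.continuous {g : (Basis m → ℝ) → ℂ} (h : IsPF g) : Continuous g := by
  refine Algebra.adjoin_induction (p := fun g _ => Continuous g) ?_ ?_ ?_ ?_ h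
  · rintro _ ⟨u, rfl⟩
    exact Complex.continuous_ofReal.comp (continuous_apply u)
  · intro c
    exact continuous_const
  · intro f g _ _ hf hg
    exact hf.add hg
  · intro f g _ _ hf hg
    exact hf.mul hg

theorem IsPF.exists_poly {g : (Basis m → ℝ) → ℂ} (h : IsPF g) :
    ∃ P : MvPolynomial (Basis m) ℂ, ∀ ρ, g ρ = MvPolynomial.eval (fun u => ((ρ u : ℝ) : ℂ)) P := by
  unfold IsPF PF at h
  rw [Algebra.adjoin_range_eq_range_aeval] at h
  obtain ⟨P, rfl⟩ := h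
  refine ⟨P, fun ρ => ?_⟩
  induction P using MvPolynomial.induction_on with
  | C c => simp
  | add P Q hP hQ =>
    rw [map_add, map_add, ← hP, ← hQ]
    simp
  | mul_X P u hP =>
    rw [map_mul, map_mul, MvPolynomial.eval_X, ← hP]
    simp

/-- **The zeros of a polynomial function which is not zero form a nowhere dense set.** -/
theorem IsPF.dense {g : (Basis m → ℝ) → ℂ} (h : IsPF g) {ρ₀ : Basis m → ℝ} (h0 : g ρ₀ ≠ 0) :
    Dense {ρ | g ρ ≠ 0} := by
  rw [dense_iff_inter_open]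
  rintro U hU ⟨ρ₁, hρ₁⟩
  by_contra hcon
  have hz : ∀ ρ ∈ U, g ρ = 0 := by
    intro ρ hρ
    by_contra h1
    exact hcon ⟨ρ, hρ, h1⟩
  obtain ⟨P, hP⟩ := h.exists_poly
  obtain ⟨ε, hε, hball⟩ := Metric.isOpen_iff.1 hU ρ₁ hρ₁
  have hP0 : P = 0 := by
    refine MvPolynomial.funext_set (fun u => (fun t : ℝ => (t : ℂ)) '' Set.Ioo (ρ₁ u - ε) (ρ₁ u + ε))
      (fun u => ?_) fun x hx => ?_
    · refine Set.Infinite.image (fun a _ b _ h => Complex.ofReal_injective h) ?_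
      exact Set.Ioo_infinite (by linarith)
    · have h1 : ∀ u, ∃ t : ℝ, t ∈ Set.Ioo (ρ₁ u - ε) (ρ₁ u + ε) ∧ (t : ℂ) = x u := fun u => by
        obtain ⟨t, ht1, ht2⟩ := hx u (Set.mem_univ u)
        exact ⟨t, ht1, ht2⟩
      choose ρ hρ1 hρ2 using h1
      have h2 : ρ ∈ U := by
        apply hball
        rw [Metric.mem_ball, dist_pi_lt_iff hε]
        intro u
        rw [Real.dist_eq, abs_lt]
        have := hρ1 u
        constructor <;> linarith [this.1, this.2]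
      have h3 := hz ρ h2
      rw [hP] at h3
      have h4 : x = fun u => ((ρ u : ℝ) : ℂ) := funext fun u => (hρ2 u).symm
      rw [h4, h3, map_zero]
  rw [hP, hP0, map_zero] at h0
  exact h0 rfl

/-- the vector restricted to the blocks in `b` -/
def mk (b : Finset (List Bool)) (ρ : Basis m → ℝ) : Basis m → ℝ := fun u =>
  if xs u ∈ b then ρ u else 0

/-- the data of a vector -/
def lift (a : Basis m → ℝ) : List Bool → ℝ := fun z => a fun i => z.getD i.1 false

theorem lift_ofFn (a : Basis m → ℝ) (u : Basis m) : lift a (List.ofFn u) = a u := by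
  unfold lift
  congr 1
  funext i
  rw [List.getD_eq_getElem _ _ (by simp)]
  simp

/-- the data with the vector `a` for `m` qubits -/
noncomputable def up (κ₀ : Dat) (m : ℕ) (a : Basis m → ℝ) : Dat := Function.update κ₀ m (lift a)

theorem vec_up_self (κ₀ : Dat) (a : Basis m → ℝ) : vec (up κ₀ m a) m = a := by
  funext u
  unfold vec up
  rw [Function.update_self, lift_ofFn]

theorem vec_up_ne (κ₀ : Dat) (a : Basis m → ℝ) {k : ℕ} (h : k ≠ m) :
    vec (up κ₀ m a) k = vec κ₀ k := by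
  funext u
  unfold vec up
  rw [Function.update_of_ne h]

/-- the product of the squares of the norms of the blocks -/
noncomputable def DD (b : Finset (List Bool)) (ρ : Basis m → ℝ) : ℝ := ∏ x ∈ b, nn ρ x

theorem nn_mk (b : Finset (List Bool)) (ρ : Basis m → ℝ) (x : List Bool) :
    nn (mk b ρ) x = if x ∈ b then nn ρ x else 0 := by
  unfold nn mk
  split_ifs with h
  · refine sum_congr rfl fun u _ => ?_
    split_ifs with h1 h2
    · rfl
    · exact absurd (h1 ▸ h) h2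
    · rfl
  · refine sum_eq_zero fun u _ => ?_
    split_ifs with h1 h2
    · exact absurd (h1 ▸ h2) h
    · norm_num
    · rfl

theorem IsPF.nn (x : List Bool) : IsPF (fun ρ : Basis m → ℝ => ((nn ρ x : ℝ) : ℂ)) := by
  have h1 : (fun ρ : Basis m → ℝ => ((OW.nn ρ x : ℝ) : ℂ)) =
      fun ρ => ∑ u : Basis m, if xs u = x then ((ρ u : ℝ) : ℂ) ^ 2 else 0 := by
    funext ρ
    unfold OW.nn
    push_cast
    exact sum_congr rfl fun u _ => by split_ifs <;> simp
  rw [h1]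
  refine IsPF.sum _ fun u _ => ?_
  by_cases h : xs u = x
  · simp only [if_pos h]
    exact (IsPF.coord u).pow 2
  · simp only [if_neg h]
    exact IsPF.const 0

theorem IsPF.prod_nn (b : Finset (List Bool)) :
    IsPF (fun ρ : Basis m → ℝ => ((∏ x ∈ b, OW.nn ρ x : ℝ) : ℂ)) := by
  have h1 : (fun ρ : Basis m → ℝ => ((∏ x ∈ b, OW.nn ρ x : ℝ) : ℂ)) =
      fun ρ => ∏ x ∈ b, ((OW.nn ρ x : ℝ) : ℂ) := by
    funext ρ
    push_cast
    rfl
  rw [h1]
  exact IsPF.prod _ fun x _ => IsPF.nn x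

theorem IsPF.dd (b : Finset (List Bool)) : IsPF (fun ρ : Basis m → ℝ => ((DD b ρ : ℝ) : ℂ)) :=
  IsPF.prod_nn b

theorem am_mk {b : Finset (List Bool)} {ρ : Basis m → ℝ} {u : Basis m} (h : xs u ∈ b) :
    am (mk b ρ) u = ρ u / Real.sqrt (nn ρ (xs u)) := by
  unfold am
  rw [nn_mk, if_pos h]
  unfold mk
  rw [if_pos h]

theorem am_mk' {b : Finset (List Bool)} {ρ : Basis m → ℝ} {u : Basis m} (h : xs u ∉ b) :
    am (mk b ρ) u = 0 := by
  unfold am mk
  rw [if_neg h, zero_div]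

theorem dd_ne {b : Finset (List Bool)} {ρ : Basis m → ℝ} (h : DD b ρ ≠ 0) {x : List Bool}
    (hx : x ∈ b) : nn ρ x ≠ 0 := by
  unfold DD at h
  exact (Finset.prod_ne_zero_iff.1 h) x hx

theorem entry (κ₀ : Dat) (b : Finset (List Bool)) (k : ℕ) (u w : Basis k) :
    ∃ g, IsPF g ∧ ∀ ρ : Basis m → ℝ, DD b ρ ≠ 0 →
      g ρ = ((DD b ρ : ℝ) : ℂ) * (ro (up κ₀ m (mk b ρ))).mat k u w := by
  classical
  by_cases h : k = m
  · subst h
    refine ⟨fun ρ => ((DD b ρ : ℝ) : ℂ) * (1 : Matrix (Basis k) (Basis k) ℂ) u w -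
      2 * (if xs u = xs w ∧ xs u ∈ b then ((ρ u : ℝ) : ℂ) * ((ρ w : ℝ) : ℂ) *
        ((∏ x ∈ b.erase (xs u), OW.nn ρ x : ℝ) : ℂ) else 0), ?_, fun ρ hρ => ?_⟩
    · refine ((IsPF.dd b).mul (IsPF.const _)).sub ((IsPF.const 2).mul ?_)
      by_cases h1 : xs u = xs w ∧ xs u ∈ b
      · simp only [if_pos h1]
        exact ((IsPF.coord u).mul (IsPF.coord w)).mul (IsPF.prod_nn _)
      · simp only [if_neg h1]
        exact IsPF.const 0
    · beta_reduce
      rw [ro_mat, vec_up_self]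
      unfold rf
      rw [Matrix.sub_apply, Matrix.add_apply, mul_sub]
      congr 1
      rw [pj_apply]
      by_cases h1 : xs u = xs w
      · by_cases h2 : xs u ∈ b
        · rw [if_pos ⟨h1, h2⟩, if_pos h1, am_mk h2, am_mk (h1 ▸ h2), ← h1]
          have h3 := dd_ne hρ h2
          have h4 : DD b ρ = OW.nn ρ (xs u) * ∏ x ∈ b.erase (xs u), OW.nn ρ x := by
            unfold DD
            rw [mul_prod_erase b _ h2]
          have h5 : ρ u / Real.sqrt (OW.nn ρ (xs u)) * (ρ w / Real.sqrt (OW.nn ρ (xs u))) =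
              ρ u * ρ w / OW.nn ρ (xs u) := by
            rw [div_mul_div_comm, Real.mul_self_sqrt (nn_nonneg _ _)]
          rw [h5, h4]
          have h6 : ((OW.nn ρ (xs u) : ℝ) : ℂ) ≠ 0 := by exact_mod_cast h3
          push_cast
          field_simp
          ring
        · rw [if_neg (fun h => h2 h.2), if_pos h1, am_mk' h2]
          simp
      · rw [if_neg (fun h => h1 h.1), if_neg h1]
        simp
  · refine ⟨fun ρ => ((DD b ρ : ℝ) : ℂ) * rf (vec κ₀ k) u w, (IsPF.dd b).mul (IsPF.const _),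
      fun ρ _ => ?_⟩
    rw [ro_mat, vec_up_ne κ₀ _ h]

variable {M : ℕ}

theorem act_ket (A : Oracle) (U : UOracle) (g : Gate) (ψ : Basis M → ℂ) (z : Basis M) :
    g.act A U ψ z = ∑ z', ψ z' * g.act A U (ket z') z := by
  have h1 : ψ = ∑ w, ψ w • ket w := by
    funext z
    rw [Finset.sum_apply, Finset.sum_eq_single z]
    · simp [ket]
    · intro w _ hw
      simp [ket, Ne.symm hw]
    · intro h
      exact absurd (mem_univ _) h
  have h2 : ∀ s : Finset (Basis M), g.act A U (∑ w ∈ s, ψ w • ket w) z =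
      ∑ w ∈ s, ψ w * g.act A U (ket w) z := by
    intro s
    classical
    induction s using Finset.induction_on with
    | empty =>
      rw [sum_empty, sum_empty]
      have h3 := congrFun (act_smul A U g (0 : ℂ) (0 : Basis M → ℂ)) z
      rw [zero_smul, zero_smul] at h3
      exact h3
    | insert i s hi ih =>
      rw [sum_insert hi, sum_insert hi, act_add, Pi.add_apply, act_smul, Pi.smul_apply, smul_eq_mul,
        ih]
  conv_lhs => rw [h1]
  exact h2 univ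

theorem act_poly (A : Oracle) (κ₀ : Dat) (b : Finset (List Bool)) (g : Gate) (z z' : Basis M) :
    ∃ f, IsPF f ∧ ∀ ρ : Basis m → ℝ, DD b ρ ≠ 0 →
      f ρ = ((DD b ρ : ℝ) : ℂ) * g.act A (ro (up κ₀ m (mk b ρ))) (ket z') z := by
  cases g with
  | std g =>
    exact ⟨fun ρ => ((DD b ρ : ℝ) : ℂ) * g.act A (ket z') z, (IsPF.dd b).mul (IsPF.const _),
      fun ρ _ => rfl⟩
  | uni c l =>
    by_cases h : l.Nodup ∧ (∀ q ∈ l, q < M) ∧ c ∉ l ∧ bit z c = true
    · choose f hf1 hf2 using fun w : Basis l.length => entry (m := m) κ₀ b l.length (rd z l) w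
      refine ⟨fun ρ => ∑ w, f w ρ * ket z' (wr z l w), IsPF.sum _ fun w _ =>
        (hf1 w).mul (IsPF.const _), fun ρ hρ => ?_⟩
      simp only [Gate.act]
      rw [if_pos h, mul_sum]
      refine sum_congr rfl fun w _ => ?_
      rw [hf2 w ρ hρ, mul_assoc]
    · refine ⟨fun ρ => ((DD b ρ : ℝ) : ℂ) * ket z' z, (IsPF.dd b).mul (IsPF.const _), fun ρ _ => ?_⟩
      simp only [Gate.act]
      rw [if_neg h]

theorem run_poly (A : Oracle) (κ₀ : Dat) (b : Finset (List Bool)) (C : List Gate) :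
    ∀ (ψ : (Basis m → ℝ) → Basis M → ℂ), (∀ z, IsPF (fun ρ => ψ ρ z)) → ∀ z,
    ∃ f, IsPF f ∧ ∀ ρ : Basis m → ℝ, DD b ρ ≠ 0 →
      f ρ = ((DD b ρ : ℝ) : ℂ) ^ C.length * run A (ro (up κ₀ m (mk b ρ))) C (ψ ρ) z := by
  induction C with
  | nil =>
    intro ψ hψ z
    refine ⟨fun ρ => ψ ρ z, hψ z, fun ρ _ => ?_⟩
    simp [run]
  | cons g C ih =>
    intro ψ hψ z
    choose f hf1 hf2 using fun z z' : Basis M => act_poly (m := m) A κ₀ b g z z'
    obtain ⟨F, hF1, hF2⟩ := ih (fun ρ z => ∑ z', ψ ρ z' * f z z' ρ)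
      (fun z => IsPF.sum _ fun z' _ => (hψ z').mul (hf1 z z')) z
    refine ⟨F, hF1, fun ρ hρ => ?_⟩
    rw [hF2 ρ hρ]
    have h1 : (fun z => ∑ z', ψ ρ z' * f z z' ρ) =
        ((DD b ρ : ℝ) : ℂ) • g.act A (ro (up κ₀ m (mk b ρ))) (ψ ρ) := by
      funext z
      rw [Pi.smul_apply, smul_eq_mul, act_ket, mul_sum]
      refine sum_congr rfl fun z' _ => ?_
      rw [hf2 z z' ρ hρ]
      ring
    rw [h1, run_smul, Pi.smul_apply, smul_eq_mul]
    simp only [run, List.length_cons]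
    ring

variable {F : Verifier} {y : List Bool}

theorem fin_poly (A : Oracle) (κ₀ : Dat) (b : Finset (List Bool))
    (φ : Basis (F.wit.eval y.length) → ℂ) (z : Basis (F.qubits y.length)) :
    ∃ f, IsPF f ∧ ∀ ρ : Basis m → ℝ, DD b ρ ≠ 0 → f ρ =
      ((DD b ρ : ℝ) : ℂ) ^ (F.circ y.length).length * fin F A (ro (up κ₀ m (mk b ρ))) y φ z :=
  run_poly A κ₀ b (F.circ y.length) (fun _ => F.start y φ) (fun _ => IsPF.const _) z

theorem frm_poly (A : Oracle) (κ₀ : Dat) (b : Finset (List Bool))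
    (φ φ' : Basis (F.wit.eval y.length) → ℂ) :
    ∃ f, IsPF f ∧ ∀ ρ : Basis m → ℝ, DD b ρ ≠ 0 → f ρ =
      ((DD b ρ : ℝ) : ℂ) ^ (2 * (F.circ y.length).length) *
        frm F A (ro (up κ₀ m (mk b ρ))) y φ φ' := by
  choose f hf1 hf2 using fun z => fin_poly (m := m) (F := F) (y := y) A κ₀ b φ z
  choose g hg1 hg2 using fun z => fin_poly (m := m) (F := F) (y := y) A κ₀ b φ' z
  refine ⟨fun ρ => ∑ z, if bit z y.length then star (f z ρ) * g z ρ else 0,
    IsPF.sum _ fun z _ => ?_, fun ρ hρ => ?_⟩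
  · by_cases h : bit z y.length = true
    · simp only [if_pos h]
      exact (hf1 z).star_mem.mul (hg1 z)
    · simp only [if_neg h]
      exact IsPF.const 0
  · unfold frm
    rw [mul_sum]
    refine sum_congr rfl fun z _ => ?_
    split_ifs
    · rw [hf2 z ρ hρ, hg2 z ρ hρ, star_mul, star_pow, RCLike.star_def, Complex.conj_ofReal]
      ring
    · rw [mul_zero]

/-- the state `φ` is an eigenvector of the acceptance form -/
def Eig (F : Verifier) (A : Oracle) (U : UOracle) (y : List Bool)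
    (φ : Basis (F.wit.eval y.length) → ℂ) : Prop :=
  ∀ w, frm F A U y (ket w) φ = ((F.acc A U y φ : ℝ) : ℂ) * φ w

theorem eig_poly (A : Oracle) (κ₀ : Dat) (b : Finset (List Bool))
    (φ : Basis (F.wit.eval y.length) → ℂ) (w : Basis (F.wit.eval y.length)) :
    ∃ f, IsPF f ∧ ∀ ρ : Basis m → ℝ, DD b ρ ≠ 0 → (f ρ = 0 ↔
      frm F A (ro (up κ₀ m (mk b ρ))) y (ket w) φ =
        ((F.acc A (ro (up κ₀ m (mk b ρ))) y φ : ℝ) : ℂ) * φ w) := by
  obtain ⟨f, hf1, hf2⟩ := frm_poly (m := m) (F := F) (y := y) A κ₀ b (ket w) φ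
  obtain ⟨g, hg1, hg2⟩ := frm_poly (m := m) (F := F) (y := y) A κ₀ b φ φ
  refine ⟨fun ρ => f ρ - g ρ * φ w, hf1.sub (hg1.mul (IsPF.const _)), fun ρ hρ => ?_⟩
  beta_reduce
  rw [hf2 ρ hρ, hg2 ρ hρ, frm_self, mul_assoc, ← mul_sub, mul_eq_zero, sub_eq_zero]
  have h1 : ((DD b ρ : ℝ) : ℂ) ^ (2 * (F.circ y.length).length) ≠ 0 :=
    pow_ne_zero _ (by exact_mod_cast hρ)
  exact ⟨fun h => h.resolve_left h1, Or.inr⟩

/-- **The generic hidden vectors.** -/
theorem generic (A : Oracle) (κ₀ : Dat) (b : Finset (List Bool)) {N : Set (Basis m → ℝ)}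
    (hN : IsOpen N) (hne : N.Nonempty) (hNd : ∀ ρ ∈ N, DD b ρ ≠ 0) {I : Type} [Countable I]
    (y : I → List Bool) (φ : (i : I) → Basis (F.wit.eval (y i).length) → ℂ)
    (hnon : ∀ i, ∃ ρ : Basis m → ℝ, DD b ρ ≠ 0 ∧
      ¬ Eig F A (ro (up κ₀ m (mk b ρ))) (y i) (φ i)) :
    ∃ ρ ∈ N, ∀ i, ¬ Eig F A (ro (up κ₀ m (mk b ρ))) (y i) (φ i) := by
  choose ρ₀ hρ₀ hE using hnon
  unfold Eig at hE
  push Not at hE
  choose w hw using hE
  choose f hf1 hf2 using fun i => eig_poly (m := m) (F := F) (y := y i) A κ₀ b (φ i) (w i)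
  have hd : Dense (⋂ i, {ρ | f i ρ ≠ 0}) := by
    refine dense_iInter_of_isOpen (fun i => ?_) fun i => ?_
    · exact isOpen_ne_fun (hf1 i).continuous continuous_const
    · exact (hf1 i).dense (ρ₀ := ρ₀ i) fun h => hw i ((hf2 i _ (hρ₀ i)).1 h)
  obtain ⟨ρ, hρN, hρ⟩ := (dense_iff_inter_open.1 hd) N hN hne
  refine ⟨ρ, hρN, fun i hi => ?_⟩
  have h1 := Set.mem_iInter.1 hρ i
  exact h1 ((hf2 i ρ (hNd ρ hρN)).2 (hi (w i)))

end Pool.Agent.H10x.OW
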