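import Pool.Agent.H10x.OW.Ref
import Pool.Agent.H10x.QW.Lang2

/-!
# The verifier of the hidden states
-/

set_option autoImplicit false

namespace Pool.Agent.H10x.OW

open Pool.Agent.NPC Pool.Agent.H620R2.Gauge Finset
open Pool.Agent.H9x.Q (Basis bit ket)
open Pool.Agent.H10x.QW (UOracle Gate Verifier IsState rd wr run xs rd_wr wr_wr wr_rd bit_wr VF ll
  length_ll mem_ll nodup_ll wit_VF qubits_VF cb xs_cb cb_inj eq_cb cond_iff rd_ge xs_eq_iff
  acc_zero acc_one)

variable {d : ℕ}

/-- the hidden state of the block of `x` -/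
noncomputable def hid (κ : Dat) (d : ℕ) (x : List Bool) (y : Basis ((VF d).wit.eval x.length)) : ℂ :=
  ((am (vec κ (ll d x.length).length) (cb d x y) : ℝ) : ℂ)

theorem isState_hid (hd : d ≤ 1) {κ : Dat} {x : List Bool}
    (hx : nn (vec κ (ll d x.length).length) x ≠ 0) : IsState (hid κ d x) := by
  unfold IsState
  rw [← sum_am hx]
  rw [← sum_filter]
  refine sum_of_injOn (cb d x) (fun y _ y' _ h => cb_inj h) ?_ ?_ ?_
  · intro y _
    simp only [coe_filter, mem_univ, true_and, Set.mem_ofPred_eq, xs_cb hd]
  · intro u hu hu'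
    exfalso
    apply hu'
    rw [mem_filter] at hu
    exact ⟨_, by simp, eq_cb hd hu.2⟩
  · intro y _
    unfold hid
    rw [Complex.norm_real, Real.norm_eq_abs, sq_abs]

/-- the component of the initial state -/
theorem cmp_start (hd : d ≤ 1) {κ : Dat} {x : List Bool}
    (φ : Basis ((VF d).wit.eval x.length) → ℂ) (z : Basis ((VF d).qubits x.length)) :
    ((am (vec κ (ll d x.length).length) (rd z (ll d x.length)) : ℝ) : ℂ) *
      cmp (vec κ (ll d x.length).length) ((VF d).start x φ) z (xs (rd z (ll d x.length))) =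
    if xs (rd z (ll d x.length)) = x ∧ bit z x.length = false ∧
        bit z (2 * x.length + d + 1) = false then
      ((am (vec κ (ll d x.length).length) (rd z (ll d x.length)) : ℝ) : ℂ) *
        ∑ y, star (hid κ d x y) * φ y
    else 0 := by
  have hw := wit_VF d x.length
  set l := ll d x.length with hl
  have hlen : l.length = 2 * x.length + d := length_ll _ _
  have hnd : l.Nodup := nodup_ll _ _
  have hlt : ∀ q ∈ l, q < (VF d).qubits x.length := by
    intro q hq
    rw [hl, mem_ll] at hq
    rw [qubits_VF]
    omega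
  have hn : x.length ∉ l := by
    rw [hl, mem_ll]
    omega
  have hc : 2 * x.length + d + 1 ∉ l := by
    rw [hl, mem_ll]
    omega
  have hstart : ∀ w : Basis l.length, (VF d).start x φ (wr z l w) ≠ 0 →
      xs w = x ∧ bit z x.length = false ∧ bit z (2 * x.length + d + 1) = false := by
    intro w h
    unfold Verifier.start at h
    have h1 : ∀ i, (i < x.length + 1 ∨ x.length + 1 + (VF d).wit.eval x.length ≤ i) →
      bit (wr z l w) i = x.getD i false := by
      by_contra hcon
      exact h (if_neg hcon)
    rw [cond_iff hd, ← hl, rd_wr hnd hlt, bit_wr hn, bit_wr hc] at h1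
    exact h1
  have hval : bit z x.length = false → bit z (2 * x.length + d + 1) = false → ∀ y,
      (VF d).start x φ (wr z l (cb d x y)) = φ y := by
    intro h1 h2 y
    unfold Verifier.start
    rw [if_pos]
    · congr 1
      funext j
      have hj := j.2
      have h3 : x.length + j.1 < l.length := by omega
      have h4 := congrFun (rd_wr hnd hlt z (cb d x y)) ⟨x.length + j.1, h3⟩
      have h5 := rd_ge (wr z l (cb d x y)) ⟨x.length + j.1, h3⟩ (by simp)
      have h6 : bit (wr z l (cb d x y)) (x.length + j.1 + 1) = cb d x y ⟨x.length + j.1, h3⟩ :=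
        h5.symm.trans h4
      have e : x.length + 1 + j.1 = x.length + j.1 + 1 := by omega
      rw [e, h6]
      unfold cb
      rw [if_neg (by simp)]
      simp only [Nat.add_sub_cancel_left]
      unfold bit
      rw [dif_pos hj]
    · rw [cond_iff hd, ← hl, rd_wr hnd hlt, bit_wr hn, bit_wr hc]
      exact ⟨xs_cb hd x y, h1, h2⟩
  by_cases h : xs (rd z l) = x ∧ bit z x.length = false ∧
      bit z (2 * x.length + d + 1) = false
  · rw [if_pos h]
    obtain ⟨h2, h3, h4⟩ := h
    congr 1
    unfold cmp
    rw [h2]
    symm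
    refine sum_of_injOn (cb d x) (fun y _ y' _ h => cb_inj h) (fun _ _ => mem_univ _) ?_ ?_
    · intro w _ hw'
      split_ifs with h6
      · exact absurd ⟨_, by simp, eq_cb hd h6⟩ hw'
      · rfl
    · intro y _
      rw [if_pos (xs_cb hd x y), hval h3 h4]
      unfold hid
      rw [RCLike.star_def, Complex.conj_ofReal]
  · rw [if_neg h]
    have h7 : cmp (vec κ l.length) ((VF d).start x φ) z (xs (rd z l)) = 0 := by
      unfold cmp
      refine sum_eq_zero fun w _ => ?_
      split_ifs with h6
      · by_cases h5 : (VF d).start x φ (wr z l w) = 0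
        · rw [h5, mul_zero]
        · obtain ⟨h8, h9⟩ := hstart w h5
          exact absurd ⟨h6.symm.trans h8, h9⟩ h
      · rfl
    rw [h7, mul_zero]

theorem start_hid (hd : d ≤ 1) {κ : Dat} {x : List Bool} (z : Basis ((VF d).qubits x.length)) :
    (VF d).start x (hid κ d x) z =
      if xs (rd z (ll d x.length)) = x ∧ bit z x.length = false ∧
        bit z (2 * x.length + d + 1) = false then
        ((am (vec κ (ll d x.length).length) (rd z (ll d x.length)) : ℝ) : ℂ) else 0 := by
  have hw := wit_VF d x.length
  unfold Verifier.start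
  by_cases h : xs (rd z (ll d x.length)) = x ∧ bit z x.length = false ∧
      bit z (2 * x.length + d + 1) = false
  · rw [if_pos h, if_pos ((cond_iff hd z).2 h)]
    unfold hid
    congr 2
    funext i
    unfold cb
    split_ifs with hi
    · exact ((xs_eq_iff hd _).1 h.1 i hi).symm
    · have h1 := i.2
      have hL := length_ll d x.length
      rw [rd_ge z i (by omega)]
      unfold bit
      rw [dif_pos (show i.1 - x.length < Polynomial.eval x.length (VF d).wit by omega)]
      simp only
      have e : x.length + 1 + (i.1 - x.length) = i.1 + 1 := by omega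
      simp only [e]
  · rw [if_neg h, if_neg fun h' => h ((cond_iff hd z).1 h')]

/-- the language of the nonzero blocks -/
def LL (κ : Dat) (d : ℕ) : Set (List Bool) := {x | nn (vec κ (2 * x.length + d)) x ≠ 0}

theorem mem_LL {κ : Dat} {x : List Bool} :
    x ∈ LL κ d ↔ nn (vec κ (ll d x.length).length) x ≠ 0 := by
  rw [length_ll]
  rfl

/-- **The verifier accepts exactly the hidden states.** -/
theorem ver_yes (hd : d ≤ 1) {A : Oracle} {κ : Dat} {x : List Bool} (hx : x ∈ LL κ d) :
    IsState (hid κ d x) ∧ (VF d).acc A (ro κ) x (hid κ d x) = 1 ∧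
      ∀ φ, IsState φ → ∑ w, star (hid κ d x w) * φ w = 0 → (VF d).acc A (ro κ) x φ = 0 := by
  rw [mem_LL] at hx
  have hst : IsState (hid κ d x) := isState_hid hd hx
  have hone : ∑ y, star (hid κ d x y) * hid κ d x y = 1 := by
    have h1 : (((∑ y, ‖hid κ d x y‖ ^ 2 : ℝ)) : ℂ) = 1 := by
      unfold IsState at hst
      rw [hst]
      norm_num
    rw [← h1]
    push_cast
    refine sum_congr rfl fun y _ => ?_
    rw [RCLike.star_def, Complex.conj_mul']
  refine ⟨hst, acc_one hst fun z => ?_, fun φ _ horth => acc_zero fun z => ?_⟩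
  · rw [ro_mat, sum_rf, cmp_start hd, hone, mul_one, start_hid hd]
    by_cases h : xs (rd z (ll d x.length)) = x ∧ bit z x.length = false ∧
      bit z (2 * x.length + d + 1) = false
    · rw [if_pos h]
      ring
    · rw [if_neg h]
      ring
  · rw [ro_mat, sum_rf, cmp_start hd, horth, mul_zero]
    split_ifs <;> ring

theorem ver_no (hd : d ≤ 1) {A : Oracle} {κ : Dat} {x : List Bool} (hx : x ∉ LL κ d)
    (φ : Basis ((VF d).wit.eval x.length) → ℂ) : (VF d).acc A (ro κ) x φ = 0 := by
  rw [mem_LL, not_not] at hx
  refine acc_zero fun z => ?_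
  rw [ro_mat, sum_rf, cmp_start hd]
  split_ifs with h
  · rw [am_eq_zero (by rw [h.1]; exact hx)]
    push_cast
    ring
  · ring

end Pool.Agent.H10x.OW
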