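import Pool.Agent.H10x.OW.Near
import Pool.Agent.H10x.OW.Ver
import Pool.Agent.H10x.OW.Defs
import Pool.Agent.H10x.QW.Num
import Pool.Agent.H9x.V1.Low

/-!
# One stage of the construction
-/

set_option autoImplicit false

namespace Pool.Agent.H10x.OW

open Pool.Agent.NPC Pool.Agent.H620R2.Gauge Finset
open Pool.Agent.H622R2 Pool.Agent.H622R2.Exp Pool.Agent.TH678.ETH Pool.Agent.TH678.SETH
  Pool.Agent.TH678.RS
open Pool.Agent.H9x.Q (Basis bit ket ket_norm)
open Pool.Agent.H9x.V1 (hs mem_hs card_hs)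
open Pool.Agent.H10x.QW (UOracle Gate Verifier IsState rd wr run xs Short lst Alt acc_congr)
open scoped Topology

/-- the data below `N` -/
def cutD (κ : Dat) (N : ℕ) : Dat := fun s => if s < N then κ s else fun _ => 0

theorem cut_mat (κ : Dat) {N m : ℕ} (h : N ≤ m) : (ro (cutD κ N)).mat m = 1 := by
  rw [ro_mat]
  have : vec (cutD κ N) m = fun _ => 0 := by
    funext u
    unfold vec cutD
    rw [if_neg (by omega)]
  rw [this, rf_zero]

/-- the sizes of a stage -/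
structure Sz (F : Verifier) (q : Polynomial ℕ) (T j : ℕ) : Prop where
  hj : 1 ≤ j
  hT : 1 ≤ T
  hsize : ∀ n' ≤ 2 * q.eval (2 * j) + 1 + 2 * j, (F.circ n').length ≤ T ∧ Short T (F.circ n')
  hbig : 4096 * (3 * q.eval (2 * j) + F.wit.eval (2 * q.eval (2 * j) + 1 + 2 * j) + 3 * T + 18) *
    T ^ 2 ≤ 2 ^ j

theorem exists_sz (F : Verifier) (q : Polynomial ℕ) (N : ℕ) : ∃ T j, N ≤ j ∧ Sz F q T j := by
  obtain ⟨P, hP⟩ := F.size
  set Lp : Polynomial ℕ := (Polynomial.C 2 * q + Polynomial.C 1 + Polynomial.X).comp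
    (Polynomial.C 2 * Polynomial.X) with hL
  set Tp : Polynomial ℕ := P.comp Lp + Polynomial.C 1 with hTp
  set Q : Polynomial ℕ := Polynomial.C 4096 * (Polynomial.C 3 * q.comp
    (Polynomial.C 2 * Polynomial.X) + F.wit.comp Lp + Polynomial.C 3 * Tp + Polynomial.C 18) *
    Tp ^ 2 with hQ
  obtain ⟨j, h1, h2⟩ := ((E0.poly_le Q 1).and (Filter.eventually_ge_atTop (N + 1))).exists
  have e1 : Lp.eval j = 2 * q.eval (2 * j) + 1 + 2 * j := by
    rw [hL]
    simp
  have e2 : Tp.eval j = P.eval (2 * q.eval (2 * j) + 1 + 2 * j) + 1 := by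
    rw [hTp, Polynomial.eval_add, Polynomial.eval_comp, e1, Polynomial.eval_C]
  have e3 : Q.eval j = 4096 * (3 * q.eval (2 * j) + F.wit.eval (2 * q.eval (2 * j) + 1 + 2 * j) +
      3 * (P.eval (2 * q.eval (2 * j) + 1 + 2 * j) + 1) + 18) *
      (P.eval (2 * q.eval (2 * j) + 1 + 2 * j) + 1) ^ 2 := by
    rw [hQ]
    simp only [Polynomial.eval_mul, Polynomial.eval_add, Polynomial.eval_C, Polynomial.eval_comp,
      Polynomial.eval_X, Polynomial.eval_pow, e1, e2]
  refine ⟨P.eval (2 * q.eval (2 * j) + 1 + 2 * j) + 1, j, by omega, by omega, by omega,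
    fun n' hn' => ?_, ?_⟩
  · have h3 := eval_mono P hn'
    obtain ⟨h4, h5⟩ := hP n'
    exact ⟨by omega, ⟨fun l r h => (h5.1 l r h).trans (by omega),
      fun c l h => (h5.2 c l h).trans (by omega)⟩⟩
  · rw [e3, one_mul] at h1
    exact h1

variable {F : Verifier} {q : Polynomial ℕ} {T j δ : ℕ}

theorem fooling (hsz : Sz F q T j) (hδ : δ ≤ 1) (A : Oracle) (κ₀ : Dat)
    (h0 : (ro κ₀).mat (2 * (2 * j) + δ) = 1) {X : Finset (List Bool)}
    (hX : ∀ x ∈ X, x.length = 2 * j)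
    (S : Finset ((y : List Bool) × (Basis (F.wit.eval y.length) → ℂ))) (hS : ∀ i ∈ S, IsState i.2)
    (hy : ∀ i ∈ S, i.1.length ≤ 2 * q.eval (2 * j) + 1 + 2 * j)
    (hcard : S.card ≤
      2 ^ (3 * q.eval (2 * j) + 5 + F.wit.eval (2 * q.eval (2 * j) + 1 + 2 * j))) :
    ∃ a : Basis (2 * (2 * j) + δ) → ℝ, (∀ u, a u = 0 ∨ a u = 1) ∧
      ∀ᶠ ρ in 𝓝 a, (∀ x ∈ X, nn ρ x ≠ 0) ∧ ∀ i ∈ S, ∀ b ⊆ X,
        |F.acc A (ro (up κ₀ (2 * (2 * j) + δ) (mk b ρ))) i.1 i.2 - F.acc A (ro κ₀) i.1 i.2| ≤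
          1 / 8 := by
  obtain ⟨hj, hT, hsize, hbig⟩ := hsz
  set Wt := F.wit.eval (2 * q.eval (2 * j) + 1 + 2 * j) with hWt
  set D := 3 * q.eval (2 * j) + Wt + 3 * T + 18 with hD
  have hT0 : (0 : ℝ) < T := by exact_mod_cast hT
  set ε : ℝ := 1 / (32 * T) ^ 2 with hε
  set ε' : ℝ := 1 / (2048 * T ^ 2) with hε'
  have hε'0 : 0 < ε' := by positivity
  have hεε : ε' < ε := by
    rw [hε, hε']
    refine one_div_lt_one_div_of_lt (by positivity) ?_
    nlinarith [sq_nonneg (T : ℝ), pow_pos hT0 2]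
  have hX' : ∀ x ∈ X, x.length = (2 * (2 * j) + δ) / 2 := fun x hx => by
    rw [hX x hx]
    omega
  obtain ⟨a, ha1, ha2, ha3⟩ := exists_fine (m := 2 * (2 * j) + δ) (A := A) (κ₀ := κ₀) (F := F)
    (ε := ε) (X := X) S hS (T := T) (fun i hi => (hsize _ (hy i hi)).1) (k := j) (D := D)
    (by omega) (by omega) (ε' := ε') hε'0 hεε (by
      rw [hε', le_div_iff₀ (by positivity)]
      have h1 : ((4096 * D * T ^ 2 : ℕ) : ℝ) ≤ ((2 ^ j : ℕ) : ℝ) := by exact_mod_cast hbig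
      push_cast at h1
      rw [show (2 : ℝ) * (D / 2 ^ j) * (2048 * T ^ 2) = (4096 * D * T ^ 2) / 2 ^ j by ring,
        div_le_one (by positivity)]
      exact h1) (by
      have h1 : S.card * T * (4096 * T ^ 2) < 2 ^ (j * D) := by
        have h2 : T ≤ 2 ^ T := Nat.lt_two_pow_self.le
        calc S.card * T * (4096 * T ^ 2) ≤ 2 ^ (3 * q.eval (2 * j) + 5 + Wt) * 2 ^ T *
              (2 ^ 12 * (2 ^ T) ^ 2) := by gcongr; norm_num
          _ = 2 ^ (3 * q.eval (2 * j) + 5 + Wt + T + 12 + T * 2) := by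
              rw [← pow_mul]
              ring
          _ < 2 ^ D := Nat.pow_lt_pow_right (by norm_num) (by omega)
          _ ≤ 2 ^ (j * D) := Nat.pow_le_pow_right (by norm_num) (Nat.le_mul_of_pos_left _ hj)
      have h3 : (2 : ℝ) / ε' = 4096 * T ^ 2 := by
        rw [hε']
        field_simp
        norm_num
      rw [h3]
      exact_mod_cast h1) hX'
  refine ⟨a, ha1, ?_⟩
  have hne : ∀ x ∈ X, nn a x ≠ 0 := fun x hx => ha2 x (hX' x hx)
  have hsq : Real.sqrt ε = 1 / (32 * T) := by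
    rw [hε, Real.sqrt_div zero_le_one, Real.sqrt_one, Real.sqrt_sq (by positivity)]
  have h1 : ∀ᶠ ρ in 𝓝 a, ∀ x ∈ X, nn ρ x ≠ 0 := by
    rw [Filter.eventually_all_finset]
    intro x hx
    exact (continuous_nn x).continuousAt.eventually_ne (hne x hx)
  have h2 : ∀ᶠ ρ in 𝓝 a, ∀ i ∈ S, Fine A κ₀ F ε X i.1 i.2 ρ := by
    rw [Filter.eventually_all_finset]
    intro i hi
    exact (ha3 i hi).eventually hne
  filter_upwards [h1, h2] with ρ hρ1 hρ2
  refine ⟨hρ1, fun i hi b hb => ?_⟩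
  refine near (hρ2 i hi) hb h0 (hS i hi) (hsize _ (hy i hi)).1 (by positivity) ?_
  rw [hsq]
  refine le_of_eq ?_
  field_simp
  norm_num

theorem acc_ro_congr (hsz : Sz F q T j) {κ' κ'' : Dat} {N' : ℕ} (hN' : T < N')
    (h : ∀ s < N', κ'' s = κ' s) (A : Oracle) {y : List Bool}
    (hy : y.length ≤ 2 * q.eval (2 * j) + 1 + 2 * j) (φ : Basis (F.wit.eval y.length) → ℂ) :
    F.acc A (ro κ'') y φ = F.acc A (ro κ') y φ := by
  refine acc_congr (hsz.hsize _ hy).2 (fun _ _ => rfl) (fun s hs => ?_) φ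
  rw [ro_mat, ro_mat]
  unfold vec
  rw [h s (by omega)]

theorem mem_LL_iff {κ'' : Dat} {b : Finset (List Bool)} {ρ : Basis (2 * (2 * j) + δ) → ℝ}
    (h : κ'' (2 * (2 * j) + δ) = lift (mk b ρ)) {x : List Bool} (hx : x.length = 2 * j)
    (hn : nn ρ x ≠ 0) : x ∈ LL κ'' δ ↔ x ∈ b := by
  show nn (vec κ'' (2 * x.length + δ)) x ≠ 0 ↔ x ∈ b
  rw [hx]
  have h1 : vec κ'' (2 * (2 * j) + δ) = mk b ρ := by
    funext u
    unfold vec
    rw [h, lift_ofFn]
  rw [h1, nn_mk]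
  split_ifs with hb
  · exact ⟨fun _ => hb, fun _ => hn⟩
  · exact ⟨fun h => absurd rfl h, fun h => absurd h hb⟩

theorem exists_b (r : ℕ) (X : Finset (List Bool)) (hX : r + 2 ≤ X.card)
    (v : List Bool → List Bool → Prop) : ∃ b ⊆ X, ∀ h : List Bool, h.length ≤ r →
      ¬ ∀ x ∈ X, (x ∈ b ↔ v h x) := by
  classical
  have hex : ∃ b ∈ X.powerset, b ∉ (hs r).image fun h => X.filter fun x => v h x := by
    by_contra hcon
    push Not at hcon
    have h1 : X.powerset ⊆ (hs r).image fun h => X.filter fun x => v h x := hcon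
    have h2 := (card_le_card h1).trans (card_image_le.trans (card_hs r))
    rw [card_powerset] at h2
    have h3 : 2 ^ (r + 2) ≤ 2 ^ X.card := Nat.pow_le_pow_right (by norm_num) hX
    have h4 : 2 ^ (r + 1) < 2 ^ (r + 2) := Nat.pow_lt_pow_right (by norm_num) (by omega)
    omega
  obtain ⟨b, hb1, hb2⟩ := hex
  refine ⟨b, mem_powerset.1 hb1, fun h hh hcon => hb2 ?_⟩
  rw [mem_image]
  refine ⟨h, mem_hs hh, ?_⟩
  ext x
  rw [mem_filter]
  constructor
  · rintro ⟨h1, h2⟩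
    exact (hcon x h1).2 h2
  · intro h1
    have h2 := (mem_powerset.1 hb1) h1
    exact ⟨h2, (hcon x h2).1 h1⟩

theorem exists_X (hsz : Sz F q T j) : ∃ X : Finset (List Bool), (∀ x ∈ X, x.length = 2 * j) ∧
    X.card = q.eval (2 * j) + 2 := by
  classical
  obtain ⟨hj, hT, _, hbig⟩ := hsz
  let Y : Finset (List Bool) := univ.image fun u : Basis (2 * j) => List.ofFn u
  have hY : Y.card = 2 ^ (2 * j) := by
    simp only [Y]
    rw [card_image_of_injective _ List.ofFn_injective]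
    simp
  have h1 : q.eval (2 * j) + 2 ≤ Y.card := by
    rw [hY]
    have h2 : q.eval (2 * j) + 2 ≤ 4096 * (3 * q.eval (2 * j) +
        F.wit.eval (2 * q.eval (2 * j) + 1 + 2 * j) + 3 * T + 18) * T ^ 2 := by
      have h3 : 1 ≤ T ^ 2 := Nat.one_le_pow _ _ hT
      calc q.eval (2 * j) + 2 ≤ 4096 * (3 * q.eval (2 * j) +
            F.wit.eval (2 * q.eval (2 * j) + 1 + 2 * j) + 3 * T + 18) * 1 := by omega
        _ ≤ _ := Nat.mul_le_mul_left _ h3
    have h4 : 2 ^ j ≤ 2 ^ (2 * j) := Nat.pow_le_pow_right (by norm_num) (by omega)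
    omega
  obtain ⟨X, hX1, hX2⟩ := exists_subset_card_eq h1
  refine ⟨X, fun x hx => ?_, hX2⟩
  have h2 := hX1 hx
  simp only [Y, mem_image] at h2
  obtain ⟨u, _, rfl⟩ := h2
  exact List.length_ofFn

/-- the input of the verifier, with or without advice -/
def inp (d : Bool) (h x : List Bool) : List Bool := if d then pairBits h x else x

theorem length_inp {d : Bool} {h x : List Bool} (hh : h.length ≤ q.eval (2 * j))
    (hx : x.length = 2 * j) : (inp d h x).length ≤ 2 * q.eval (2 * j) + 1 + 2 * j := by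
  unfold inp
  split_ifs
  · rw [length_pairBits]
    omega
  · omega

open scoped Classical in
/-- the inputs of the verifier -/
noncomputable def Ys (d : Bool) (r L : ℕ) (X : Finset (List Bool)) : Finset (List Bool) :=
  ((hs r ×ˢ X).image fun p => inp d p.1 p.2).filter fun y => y.length ≤ L

theorem mem_Ys {d : Bool} {r L : ℕ} {X : Finset (List Bool)} {h x : List Bool}
    (hh : h.length ≤ r) (hx : x ∈ X) (hL : (inp d h x).length ≤ L) : inp d h x ∈ Ys d r L X := by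
  classical
  unfold Ys
  rw [mem_filter, mem_image]
  exact ⟨⟨(h, x), mem_product.2 ⟨mem_hs hh, hx⟩, rfl⟩, hL⟩

theorem len_Ys {d : Bool} {r L : ℕ} {X : Finset (List Bool)} {y : List Bool}
    (hy : y ∈ Ys d r L X) : y.length ≤ L := by
  unfold Ys at hy
  exact (mem_filter.1 hy).2

theorem card_Ys (d : Bool) (r L : ℕ) {X : Finset (List Bool)} (hX : X.card = r + 2) :
    (Ys d r L X).card ≤ 2 ^ (2 * r + 3) := by
  unfold Ys
  refine (card_filter_le _ _).trans (card_image_le.trans ?_)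
  rw [card_product, hX]
  have h1 : r + 2 ≤ 2 ^ (r + 2) := Nat.lt_two_pow_self.le
  calc (hs r).card * (r + 2) ≤ 2 ^ (r + 1) * 2 ^ (r + 2) := Nat.mul_le_mul (card_hs r) h1
    _ = 2 ^ (2 * r + 3) := by
      rw [← pow_add]
      congr 1
      ring

end Pool.Agent.H10x.OW
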