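import Pool.Agent.H10x.OW.Hard

/-!
# The unitary oracle
-/

set_option autoImplicit false

namespace Pool.Agent.H10x.OW

open Pool.Agent.NPC Pool.Agent.H620R2.Gauge Finset
open Pool.Agent.H622R2 Pool.Agent.H622R2.Exp Pool.Agent.TH678.ETH Pool.Agent.TH678.SETH
  Pool.Agent.TH678.RS
open Pool.Agent.H9x.Q (Basis bit ket ket_norm)
open Pool.Agent.H9x.V1 (finite_ext)
open Pool.Agent.H10x.QW (UOracle Gate Verifier IsState rd wr run xs Short lst Alt acc_congr VF ll
  length_ll IsQCPH IsQCPHpoly cb xs_cb cb_inj eq_cb)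

/-- the hidden state of a set of strings is a subset state -/
theorem hid_sub {δ : ℕ} (hδ : δ ≤ 1) {κ : Dat} {x : List Bool} (hx : x ∈ LL κ δ)
    (hκ : ∀ z, κ (2 * x.length + δ) z = 0 ∨ κ (2 * x.length + δ) z = 1) :
    hid κ δ x ∈ Sub ((VF δ).wit.eval x.length) := by
  classical
  rw [mem_LL] at hx
  have hlen := length_ll δ x.length
  set l := ll δ x.length with hl
  set v : Basis l.length → ℝ := vec κ l.length with hv
  have hbin : ∀ u, v u = 0 ∨ v u = 1 := by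
    intro u
    rw [hv]
    unfold vec
    have h1 : ∀ z, κ l.length z = 0 ∨ κ l.length z = 1 := by
      rw [hlen]
      exact hκ
    exact h1 _
  set S : Finset (Basis ((VF δ).wit.eval x.length)) := univ.filter fun y => v (cb δ x y) = 1 with hS
  -- the square of the norm is the number of elements
  have hnn : nn v x = S.card := by
    have h1 : (S.card : ℝ) =
        ∑ y : Basis ((VF δ).wit.eval x.length), v (cb δ x y) ^ 2 := by
      rw [hS, card_filter]
      push_cast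
      refine sum_congr rfl fun y _ => ?_
      rcases hbin (cb δ x y) with h | h
      · rw [h, if_neg (by norm_num)]
        norm_num
      · rw [h, if_pos rfl]
        norm_num
    rw [h1]
    unfold nn
    rw [← sum_filter]
    symm
    refine sum_of_injOn (cb δ x) (fun y _ y' _ h => cb_inj h) ?_ ?_ ?_
    · intro y _
      simp only [coe_filter, mem_univ, true_and, Set.mem_ofPred_eq, xs_cb hδ]
    · intro u hu hu'
      exfalso
      apply hu'
      rw [mem_filter] at hu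
      exact ⟨_, by simp, eq_cb hδ hu.2⟩
    · intro y _
      rfl
  have hcard : (S.card : ℝ) ≠ 0 := by
    rw [← hnn]
    exact hx
  refine ⟨S, ?_, fun w => ?_⟩
  · rw [← card_pos]
    exact Nat.pos_of_ne_zero (by exact_mod_cast hcard)
  · show ((v (cb δ x w) / Real.sqrt (nn v (xs (cb δ x w))) : ℝ) : ℂ) = _
    rw [xs_cb hδ, hnn]
    rcases hbin (cb δ x w) with h | h
    · rw [h, if_neg (fun h' => by rw [hS, mem_filter, h] at h'; norm_num at h'), zero_div]
      norm_num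
    · rw [h, if_pos (by rw [hS, mem_filter]; exact ⟨mem_univ _, h⟩)]

/-- **Data which satisfy all the requirements.** -/
theorem exists_data (A : Oracle) {W : (p : ℕ) → Set (Basis p → ℂ)} (hW : ∀ p, (W p).Countable) :
    ∃ κ : Dat, (∀ s, QQ s (κ s)) ∧ (∀ d F p q k, Req1 A d F p q k κ) ∧
      ∀ d F q, Req2 A W d F q κ := by
  have hne : Nonempty Verifier := ⟨VF 0⟩
  have hpc := CC.poly_countable
  obtain ⟨en, hen⟩ := exists_surjective_nat
    (Bool × Bool × Verifier × Polynomial ℕ × Polynomial ℕ × ℕ)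
  obtain ⟨κ, h1, h2⟩ := finite_ext (β := List Bool → ℝ) QQ
    (fun i κ => if (en i).1 = true then
      Req1 A (en i).2.1 (en i).2.2.1 (en i).2.2.2.1 (en i).2.2.2.2.1 (en i).2.2.2.2.2 κ
      else Req2 A W (en i).2.1 (en i).2.2.1 (en i).2.2.2.2.1 κ)
    ⟨fun _ _ => 0, fun _ _ _ => Or.inl rfl⟩
    (fun i N κ hκ => by
      by_cases h : (en i).1 = true
      · obtain ⟨κ', N', h1, h2, h3⟩ := stage1 A (en i).2.1 (en i).2.2.1 (en i).2.2.2.1
          (en i).2.2.2.2.1 (en i).2.2.2.2.2 N κ hκ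
        refine ⟨κ', N', h1, h2, fun κ'' _ h => ?_⟩
        rw [if_pos ‹_›]
        exact h3 κ'' h
      · obtain ⟨κ', N', h1, h2, h3⟩ := stage2 A hW (en i).2.1 (en i).2.2.1
          (en i).2.2.2.2.1 N κ hκ
        refine ⟨κ', N', h1, h2, fun κ'' _ h => ?_⟩
        rw [if_neg ‹_›]
        exact h3 κ'' h)
  refine ⟨κ, h1, fun d F p q k => ?_, fun d F q => ?_⟩
  · obtain ⟨i, hi⟩ := hen (true, d, F, p, q, k)
    have h3 := h2 i
    rw [hi] at h3
    simpa using h3
  · obtain ⟨i, hi⟩ := hen (false, d, F, 0, q, 0)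
    have h3 := h2 i
    rw [hi] at h3
    simpa using h3

theorem IsOpt.mono {W W' : (p : ℕ) → Set (Basis p → ℂ)} (h : ∀ p, W p ⊆ W' p) {A : Oracle}
    {U : UOracle} {Y N : Set (List Bool)} (hY : IsOpt W A U Y N) : IsOpt W' A U Y N := by
  obtain ⟨F, hF⟩ := hY
  refine ⟨F, fun x => ⟨fun hx => ?_, (hF x).2⟩⟩
  obtain ⟨φ, h1, h2⟩ := (hF x).1 hx
  exact ⟨φ, h _ h1, h2⟩

theorem IsOptPoly.mono {W W' : (p : ℕ) → Set (Basis p → ℂ)} (h : ∀ p, W p ⊆ W' p) {A : Oracle}
    {U : UOracle} {Y N : Set (List Bool)} (hY : IsOptPoly W A U Y N) : IsOptPoly W' A U Y N := by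
  obtain ⟨F, q, a, ha, hF⟩ := hY
  refine ⟨F, q, a, ha, fun x => ⟨fun hx => ?_, (hF x).2⟩⟩
  obtain ⟨φ, h1, h2⟩ := (hF x).1 hx
  exact ⟨φ, h _ h1, h2⟩

theorem sub_countable (p : ℕ) : (Sub p).Countable := by
  classical
  have h1 : Sub p ⊆ Set.range fun S : Finset (Basis p) => fun w =>
      if w ∈ S then ((1 / Real.sqrt S.card : ℝ) : ℂ) else 0 := by
    rintro φ ⟨S, _, hS⟩
    refine ⟨S, ?_⟩
    funext w
    rw [hS]
  exact (Set.countable_range _).mono h1

/-- **The unitary oracle.** -/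
theorem world (A : Oracle) (W : (p : ℕ) → Set (Basis p → ℂ)) (hW : ∀ p, (W p).Countable) :
    ∃ U : UOracle,
      (∃ L, IsExact Sub A U L ∧ ¬ IsQCPH A U L Lᶜ ∧ ¬ IsQCPHpoly A U L Lᶜ) ∧
      ∃ L, IsExact (fun _ => Set.univ) A U L ∧
        ¬ IsOpt W A U L Lᶜ ∧ ¬ IsOptPoly W A U L Lᶜ := by
  obtain ⟨κ, h1, h2, h3⟩ := exists_data A hW
  refine ⟨ro κ, ⟨LL κ 1, ⟨VF 1, fun x => ⟨fun hx => ?_, fun hx φ _ => ver_no le_rfl hx φ⟩⟩, ?_, ?_⟩,
    ⟨LL κ 0, ⟨VF 0, fun x => ⟨fun hx => ?_, fun hx φ _ => ver_no (by norm_num) hx φ⟩⟩, ?_, ?_⟩⟩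
  · exact ⟨hid κ 1 x, hid_sub le_rfl hx (h1 _ (by omega)), ver_yes le_rfl hx⟩
  · rintro ⟨F, p, k, hF⟩
    exact h2 false F p 0 k (fun _ => []) (fun n => by simp) fun x => hF x
  · rintro ⟨F, p, k, q, h, hh, hF⟩
    exact h2 true F p q k h hh fun x => hF x
  · exact ⟨hid κ 0 x, Set.mem_univ _, ver_yes (by norm_num) hx⟩
  · rintro ⟨F, hF⟩
    exact h3 false F 0 (fun _ => []) (fun n => by simp) fun x => hF x
  · rintro ⟨F, q, h, hh, hF⟩
    exact h3 true F q h hh fun x => hF x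

end Pool.Agent.H10x.OW
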